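import Mathlib

/-!
# The covering lemma of Fortnow and Santhanam

Let `R` map the families `ι → α` to elements of `β`, where `|β| ≤ 2 ^ |ι|`. If `S` has less than
`2 ^ m` elements then there are at most `m` values of `R` on families in `S` such that every element
of `S` occurs in a family in `S` with one of these values.
-/

set_option autoImplicit false

namespace Pool.Agent.K6.H3.FS

open Finset

variable {α β ι : Type} [DecidableEq α] [DecidableEq β] [Fintype ι] [DecidableEq ι] [Fintype β]

theorem cover (R : (ι → α) → β) (hι : 0 < Fintype.card ι)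
    (hβ : Fintype.card β ≤ 2 ^ Fintype.card ι) :
    ∀ (m : ℕ) (S : Finset α), S.card < 2 ^ m → ∃ Φ : Finset β, Φ.card ≤ m ∧
      (∀ φ ∈ Φ, ∃ z : ι → α, (∀ i, z i ∈ S) ∧ R z = φ) ∧
      ∀ a ∈ S, ∃ z : ι → α, (∀ i, z i ∈ S) ∧ (∃ j, z j = a) ∧ R z ∈ Φ := by
  intro m
  induction m with
  | zero =>
    intro S hS
    have h0 : S = ∅ := by
      rw [← Finset.card_eq_zero]
      simpa using hS
    subst h0
    exact ⟨∅, by simp, by simp, by simp⟩
  | succ m ih =>
    intro S hS
    rcases S.eq_empty_or_nonempty with rfl | hne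
    · exact ⟨∅, by simp, by simp, by simp⟩
    -- the most popular value
    set Z : Finset (ι → α) := Fintype.piFinset fun _ => S with hZ
    have hZc : Z.card = S.card ^ Fintype.card ι := by
      rw [hZ, Fintype.card_piFinset]
      simp
    have hmem : ∀ z : ι → α, z ∈ Z ↔ ∀ i, z i ∈ S := by
      intro z
      rw [hZ, Fintype.mem_piFinset]
    obtain ⟨φ, hφ⟩ : ∃ φ : β, Z.card ≤ Fintype.card β * (Z.filter fun z => R z = φ).card := by
      by_contra hcon
      push Not at hcon
      have h1 : Z.card = ∑ φ : β, (Z.filter fun z => R z = φ).card :=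
        Finset.card_eq_sum_card_fiberwise fun z _ => Finset.mem_univ _
      haveI : Nonempty β := by
        obtain ⟨a, ha⟩ := hne
        exact ⟨R fun _ => a⟩
      have h2 : Fintype.card β * Z.card < Fintype.card β * Z.card := by
        calc Fintype.card β * Z.card
            = ∑ φ : β, Fintype.card β * (Z.filter fun z => R z = φ).card := by
              rw [← Finset.mul_sum, ← h1]
          _ < ∑ _φ : β, Z.card := Finset.sum_lt_sum_of_nonempty Finset.univ_nonempty
              fun φ _ => hcon φ
          _ = Fintype.card β * Z.card := by rw [Finset.sum_const, Finset.card_univ, smul_eq_mul]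
      exact lt_irrefl _ h2
    set W := Z.filter fun z => R z = φ with hW
    set S' : Finset α := S.filter fun a => ∃ z ∈ W, ∃ j, z j = a with hS'
    have hWS : W.card ≤ S'.card ^ Fintype.card ι := by
      have : W ⊆ Fintype.piFinset fun _ : ι => S' := by
        intro z hz
        rw [Fintype.mem_piFinset]
        intro i
        rw [hS', Finset.mem_filter]
        refine ⟨(hmem z).1 (Finset.mem_filter.1 hz).1 i, z, hz, i, rfl⟩
      refine (Finset.card_le_card this).trans ?_
      rw [Fintype.card_piFinset]
      simp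
    have hhalf : S.card ≤ 2 * S'.card := by
      have h1 : S.card ^ Fintype.card ι ≤ (2 * S'.card) ^ Fintype.card ι := by
        rw [← hZc, mul_pow]
        exact hφ.trans (Nat.mul_le_mul hβ hWS)
      exact (Nat.pow_le_pow_iff_left hι.ne').1 h1
    have hsub : S' ⊆ S := Finset.filter_subset _ _
    have hrest : (S \ S').card < 2 ^ m := by
      rw [Finset.card_sdiff_of_subset hsub]
      rw [pow_succ] at hS
      omega
    obtain ⟨Φ, h1, h2, h3⟩ := ih (S \ S') hrest
    refine ⟨insert φ Φ, (Finset.card_insert_le _ _).trans (by omega), ?_, ?_⟩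
    · intro ψ hψ
      rcases Finset.mem_insert.1 hψ with rfl | hψ
      · have hne' : S'.Nonempty := by
          rw [← Finset.card_pos]
          have := hne.card_pos
          omega
        obtain ⟨a, ha⟩ := hne'
        obtain ⟨-, z, hz, -, -⟩ := Finset.mem_filter.1 ha
        obtain ⟨hz1, hz2⟩ := Finset.mem_filter.1 hz
        exact ⟨z, (hmem z).1 hz1, hz2⟩
      · obtain ⟨z, hz1, hz2⟩ := h2 ψ hψ
        exact ⟨z, fun i => (Finset.mem_sdiff.1 (hz1 i)).1, hz2⟩
    · intro a ha
      by_cases haS : a ∈ S'
      · obtain ⟨-, z, hz, j, hj⟩ := Finset.mem_filter.1 haS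
        obtain ⟨hz1, hz2⟩ := Finset.mem_filter.1 hz
        exact ⟨z, (hmem z).1 hz1, ⟨j, hj⟩, by rw [hz2]; exact Finset.mem_insert_self _ _⟩
      · obtain ⟨z, hz1, hz2, hz3⟩ := h3 a (Finset.mem_sdiff.2 ⟨ha, haS⟩)
        exact ⟨z, fun i => (Finset.mem_sdiff.1 (hz1 i)).1, hz2, Finset.mem_insert_of_mem hz3⟩

end Pool.Agent.K6.H3.FS
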