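import Mathlib
import Pool.Agent.K6.H3.FS.Cover
import Pool.Agent.W953.RD.CM

/-!
# From compressions of an OR to nondeterministic circuits
-/

set_option autoImplicit false

namespace Pool.Agent.K6.H3.FS

open Finset Pool.Agent.H540R2 Pool.Agent.H540R2.Circuit Pool.Agent.W953.NW Pool.Agent.W953.RD

variable {n : ℕ}

/-- `P'` extends `P` by at most `s` gates -/
def Grow (P P' : Circuit n) (s : ℕ) : Prop := Ext P P' ∧ P'.size ≤ P.size + s

lemma Grow.trans {P Q R : Circuit n} {s s' : ℕ} (h : Grow P Q s) (h' : Grow Q R s') :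
    Grow P R (s + s') := ⟨h.1.trans h'.1, by have := h.2; have := h'.2; omega⟩

lemma Grow.refl (P : Circuit n) (s : ℕ) : Grow P P s := ⟨Ext.refl P, Nat.le_add_right _ _⟩

lemma Grow.le {P Q : Circuit n} {s s' : ℕ} (h : Grow P Q s) (hs : s ≤ s') : Grow P Q s' :=
  ⟨h.1, by have := h.2; omega⟩

lemma Grow.of_stp {P Q : Circuit n} {s t : ℕ} (h : Stp P Q s t) : Grow P Q s := ⟨h.1, h.2.1⟩

/-- conjunctions -/
theorem and_all (P : Circuit n) (G : ℕ → BF n) (s : ℕ) : ∀ k : ℕ,
    (∀ j < k, ∀ P', Ext P P' → ∃ P'' : Circuit n, Grow P' P'' s ∧ AvE P'' (G j)) →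
    ∃ P' : Circuit n, Grow P P' (k * (s + 1)) ∧
      AvE P' (fun x => decide (∀ j < k, G j x = true)) := by
  intro k
  induction k with
  | zero =>
    intro _
    refine ⟨P, Grow.refl _ _, 0, ?_⟩
    exact (Av.const P true 0).congr fun x => by simp
  | succ k ih =>
    intro h
    obtain ⟨P1, s1, a1⟩ := ih (fun j hj => h j (by omega))
    obtain ⟨P2, s2, a2⟩ := h k (Nat.lt_succ_self k) P1 s1.1
    obtain ⟨P3, s3, a3⟩ := (a1.ext s2.1).and a2
    refine ⟨P3, ((s1.trans s2).trans (Grow.of_stp s3)).le (le_of_eq (by ring)), ?_⟩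
    obtain ⟨d, a3⟩ := a3
    refine ⟨d, a3.congr fun x => ?_⟩
    rw [Bool.eq_iff_iff]
    simp only [Bool.and_eq_true, decide_eq_true_eq]
    constructor
    · rintro ⟨h1, h2⟩ j hj
      rcases Nat.lt_succ_iff_lt_or_eq.mp hj with h' | rfl
      · exact h1 j h'
      · exact h2
    · intro h1
      exact ⟨fun j hj => h1 j (by omega), h1 k (Nat.lt_succ_self k)⟩

/-- disjunctions -/
theorem or_all (P : Circuit n) (G : ℕ → BF n) (s : ℕ) : ∀ k : ℕ,
    (∀ j < k, ∀ P', Ext P P' → ∃ P'' : Circuit n, Grow P' P'' s ∧ AvE P'' (G j)) →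
    ∃ P' : Circuit n, Grow P P' (k * (s + 1)) ∧
      AvE P' (fun x => decide (∃ j < k, G j x = true)) := by
  intro k
  induction k with
  | zero =>
    intro _
    refine ⟨P, Grow.refl _ _, 0, ?_⟩
    exact (Av.const P false 0).congr fun x => by simp
  | succ k ih =>
    intro h
    obtain ⟨P1, s1, a1⟩ := ih (fun j hj => h j (by omega))
    obtain ⟨P2, s2, a2⟩ := h k (Nat.lt_succ_self k) P1 s1.1
    obtain ⟨P3, s3, a3⟩ := (a1.ext s2.1).or a2
    refine ⟨P3, ((s1.trans s2).trans (Grow.of_stp s3)).le (le_of_eq (by ring)), ?_⟩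
    obtain ⟨d, a3⟩ := a3
    refine ⟨d, a3.congr fun x => ?_⟩
    rw [Bool.eq_iff_iff]
    simp only [Bool.or_eq_true, decide_eq_true_eq]
    constructor
    · rintro (⟨j, h1, h2⟩ | h2)
      · exact ⟨j, by omega, h2⟩
      · exact ⟨k, Nat.lt_succ_self k, h2⟩
    · rintro ⟨j, h1, h2⟩
      rcases Nat.lt_succ_iff_lt_or_eq.mp h1 with h' | rfl
      · exact Or.inl ⟨j, h', h2⟩
      · exact Or.inr h2

/-- equality with a constant -/
theorem eq_const {P : Circuit n} {f : BF n} (hf : AvE P f) (b : Bool) :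
    ∃ P' : Circuit n, Grow P P' 1 ∧ AvE P' (fun x => decide (f x = b)) := by
  cases b with
  | true =>
    obtain ⟨d, hd⟩ := hf
    exact ⟨P, Grow.refl _ _, d, hd.congr fun x => by cases f x <;> rfl⟩
  | false =>
    obtain ⟨P', s, d, hd⟩ := hf.not
    exact ⟨P', Grow.of_stp s, d, hd.congr fun x => by cases f x <;> rfl⟩

/-- equality of two functions -/
theorem eq_two {P : Circuit n} {f g : BF n} (hf : AvE P f) (hg : AvE P g) :
    ∃ P' : Circuit n, Grow P P' 5 ∧ AvE P' (fun x => decide (f x = g x)) := by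
  obtain ⟨P1, s1, a1⟩ := hf.not
  obtain ⟨P2, s2, a2⟩ := (hg.ext s1.1).not
  obtain ⟨P3, s3, a3⟩ := (a1.ext s2.1).and a2
  have e3 := (s1.1.trans s2.1).trans s3.1
  obtain ⟨P4, s4, a4⟩ := (hf.ext e3).and (hg.ext e3)
  obtain ⟨P5, s5, d, a5⟩ := (a3.ext s4.1).or a4
  refine ⟨P5, ((((Grow.of_stp s1).trans (Grow.of_stp s2)).trans (Grow.of_stp s3)).trans
    (Grow.of_stp s4)).trans (Grow.of_stp s5), d, a5.congr fun x => ?_⟩
  cases f x <;> cases g x <;> rfl

/-- the input of the large problem -/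
def pull {a b : ℕ} {ι : Type} (src : Fin b → Option (ι × Fin a)) (z : ι → Fin a → Bool) :
    Fin b → Bool :=
  fun e => match src e with
    | none => false
    | some (i, e₀) => z i e₀

/-- **Nondeterministic circuits from compressions of an OR.** -/
theorem fs_circuit {a b : ℕ} {ι : Type} [Fintype ι] (hι : 0 < Fintype.card ι)
    (C : Circuit b) {B : ℕ} (o : Fin B → Node b) (ho : ∀ i j, (o i).wires j ≠ 0 → j < C.size)
    (hB : B ≤ Fintype.card ι) (src : Fin b → Option (ι × Fin a))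
    (YES NO : (Fin a → Bool) → Prop)
    (hsep : ∀ z z' : ι → Fin a → Bool, (∀ i, NO (z i)) → (∃ i, YES (z' i)) →
      ¬ ∀ j, (o j).eval (pull src z) (C.val (pull src z)) =
        (o j).eval (pull src z') (C.val (pull src z'))) :
    ∃ Q : Circuit (a + Fintype.card ι * a),
      Q.size ≤ C.size + Fintype.card ι * (6 * a + 1) + (a + 1) * (2 * B + 1) + 1 ∧
      (∀ x, NO x → ∃ w, Q.eval (Fin.append x w) = true) ∧
      ∀ x, YES x → ∀ w, Q.eval (Fin.append x w) = false := by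
  classical
  obtain ⟨t, ht⟩ : ∃ t, t = Fintype.card ι := ⟨_, rfl⟩
  obtain ⟨E⟩ : Nonempty (ι ≃ Fin t) := ⟨Fintype.equivFinOfCardEq ht.symm⟩
  rw [← ht] at hι hB ⊢
  -- the compression
  set R : (ι → (Fin a → Bool)) → (Fin B → Bool) := fun z j =>
    (o j).eval (pull src z) (C.val (pull src z)) with hR
  obtain ⟨Φ, h1, h2, h3⟩ := cover R (by rw [← ht]; exact hι)
    (by rw [Fintype.card_fun, Fintype.card_bool, Fintype.card_fin, ← ht]
        exact Nat.pow_le_pow_right (by norm_num) hB) (a + 1)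
    (univ.filter fun x => NO x) (by
      refine lt_of_le_of_lt (Finset.card_filter_le _ _) ?_
      rw [Finset.card_univ, Fintype.card_fun, Fintype.card_bool, Fintype.card_fin]
      exact Nat.pow_lt_pow_right (by norm_num) (Nat.lt_succ_self a))
  simp only [Finset.mem_filter, Finset.mem_univ, true_and] at h2 h3
  obtain ⟨EΦ⟩ : Nonempty ({φ // φ ∈ Φ} ≃ Fin Φ.card) := ⟨Φ.equivFin⟩
  -- the family of inputs that is guessed
  let gs : (Fin (a + t * a) → Bool) → ι → Fin a → Bool :=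
    fun y i e => y (Fin.natAdd a (finProdFinEquiv (E i, e)))
  have hpull : ∀ e : Fin b, ∀ P : Circuit (a + t * a), AvE P (fun y => pull src (gs y) e) := by
    intro e P
    unfold pull
    cases h : src e with
    | none => exact ⟨0, Av.const P false 0⟩
    | some ie => exact ⟨0, Av.var P (Fin.natAdd a (finProdFinEquiv (E ie.1, ie.2))) 0⟩
  obtain ⟨P1, s1, a1⟩ := AvE.app (Circuit.empty (a + t * a)) C (fun e y => pull src (gs y) e)
    (fun e => hpull e _)
  -- one of the guessed inputs is the given one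
  obtain ⟨P2, s2, a2⟩ := or_all P1
    (fun i y => decide (∀ e < a, ∀ he : e < a, ∀ hi : i < t, (gs y (E.symm ⟨i, hi⟩) ⟨e, he⟩) =
      y (Fin.castAdd (t * a) ⟨e, he⟩))) (6 * a) t (fun i hi P' _ => by
      obtain ⟨P'', s, d, ad⟩ := and_all P' (fun e y => decide (∀ he : e < a, ∀ hi : i < t,
        (gs y (E.symm ⟨i, hi⟩) ⟨e, he⟩) = y (Fin.castAdd (t * a) ⟨e, he⟩))) 5 a
        (fun e he P'' _ => by
          obtain ⟨P3, s3, d, a3⟩ := eq_two
            (f := fun y => y (Fin.natAdd a (finProdFinEquiv (E (E.symm ⟨i, hi⟩), ⟨e, he⟩))))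
            (g := fun y => y (Fin.castAdd (t * a) ⟨e, he⟩))
            ⟨0, Av.var P'' _ 0⟩ ⟨0, Av.var P'' _ 0⟩
          refine ⟨P3, s3, d, a3.congr fun y => ?_⟩
          rw [Bool.eq_iff_iff]
          simp only [decide_eq_true_eq]
          exact ⟨fun h _ _ => h, fun h => h he hi⟩)
      refine ⟨P'', s.le (le_of_eq (by ring)), d, ad.congr fun y => ?_⟩
      rw [Bool.eq_iff_iff]
      simp only [decide_eq_true_eq])
  -- the compressed string is one of the given ones
  obtain ⟨P3, s3, a3⟩ := or_all P2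
    (fun l y => decide (∀ j < B, ∀ hj : j < B, ∀ hl : l < Φ.card, R (gs y) ⟨j, hj⟩ =
      (EΦ.symm ⟨l, hl⟩).1 ⟨j, hj⟩)) (2 * B) Φ.card (fun l hl P' hP' => by
      obtain ⟨P'', s, d, ad⟩ := and_all P' (fun j y => decide (∀ hj : j < B,
        ∀ hl : l < Φ.card, R (gs y) ⟨j, hj⟩ = (EΦ.symm ⟨l, hl⟩).1 ⟨j, hj⟩)) 1 B
        (fun j hj P'' hP'' => by
          have hav : AvE P'' (fun y => R (gs y) ⟨j, hj⟩) :=
            (((a1 (o ⟨j, hj⟩) (ho _)).ext s2.1).ext hP').ext hP''
          obtain ⟨P3, s3, d, a3⟩ := eq_const hav ((EΦ.symm ⟨l, hl⟩).1 ⟨j, hj⟩)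
          refine ⟨P3, s3, d, a3.congr fun y => ?_⟩
          rw [Bool.eq_iff_iff]
          simp only [decide_eq_true_eq]
          exact ⟨fun h _ _ => h, fun h => h hj hl⟩)
      refine ⟨P'', s.le (le_of_eq (by ring)), d, ad.congr fun y => ?_⟩
      rw [Bool.eq_iff_iff]
      simp only [decide_eq_true_eq])
  obtain ⟨P4, s4, a4⟩ := (a2.ext s3.1).and a3
  obtain ⟨d, a4⟩ := a4
  obtain ⟨Q, q1, -, -, q4⟩ := a4.circuit
  have hchar : ∀ x w, Q.eval (Fin.append x w) = true ↔
      (∃ i, gs (Fin.append x w) i = x) ∧ R (gs (Fin.append x w)) ∈ Φ := by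
    intro x w
    rw [q4]
    simp only [Bool.and_eq_true, decide_eq_true_eq]
    constructor
    · rintro ⟨⟨i, hi, h5⟩, l, hl, h6⟩
      refine ⟨⟨E.symm ⟨i, hi⟩, funext fun e => ?_⟩, ?_⟩
      · have := h5 e.val e.isLt e.isLt hi
        rw [this]
        exact Fin.append_left x w e
      · have : R (gs (Fin.append x w)) = (EΦ.symm ⟨l, hl⟩).1 := funext fun j =>
          h6 j.val j.isLt j.isLt hl
        rw [this]
        exact (EΦ.symm ⟨l, hl⟩).2
    · rintro ⟨⟨i, hi⟩, hΦ⟩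
      refine ⟨⟨(E i).val, (E i).isLt, fun e he _ _ => ?_⟩, (EΦ ⟨_, hΦ⟩).val, (EΦ ⟨_, hΦ⟩).isLt,
        fun j hj _ _ => ?_⟩
      · rw [Fin.append_left]
        have h5 : E.symm ⟨(E i).val, (E i).isLt⟩ = i := E.symm_apply_apply i
        rw [h5, hi]
      · have h5 : EΦ.symm ⟨(EΦ ⟨_, hΦ⟩).val, (EΦ ⟨_, hΦ⟩).isLt⟩ = ⟨_, hΦ⟩ :=
          EΦ.symm_apply_apply _
        rw [h5]
  refine ⟨Q, ?_, fun x hx => ?_, fun x hx w => ?_⟩
  · have e1 := s1.2.1
    have e2 := s2.2
    have e3 := s3.2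
    have e4 := s4.2.1
    have e0 : (Circuit.empty (a + t * a)).size = 0 := rfl
    have e5 : Φ.card * (2 * B + 1) ≤ (a + 1) * (2 * B + 1) := Nat.mul_le_mul_right _ h1
    omega
  · obtain ⟨z, -, ⟨j, hj⟩, hz⟩ := h3 x hx
    -- the guess
    let w : Fin (t * a) → Bool := fun q => z (E.symm (finProdFinEquiv.symm q).1)
      (finProdFinEquiv.symm q).2
    have hw : gs (Fin.append x w) = z := by
      funext i e
      show Fin.append x w (Fin.natAdd a (finProdFinEquiv (E i, e))) = z i e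
      rw [Fin.append_right]
      show z (E.symm (finProdFinEquiv.symm (finProdFinEquiv (E i, e))).1)
        (finProdFinEquiv.symm (finProdFinEquiv (E i, e))).2 = z i e
      rw [Equiv.symm_apply_apply]
      show z (E.symm (E i)) e = z i e
      rw [Equiv.symm_apply_apply]
    refine ⟨w, (hchar x w).2 ?_⟩
    rw [hw]
    exact ⟨⟨j, hj⟩, hz⟩
  · by_contra hcon
    have : Q.eval (Fin.append x w) = true := by
      cases h : Q.eval (Fin.append x w) with
      | true => rfl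
      | false => exact absurd h hcon
    obtain ⟨⟨i, hi⟩, hΦ⟩ := (hchar x w).1 this
    obtain ⟨z, hz1, hz2⟩ := h2 _ hΦ
    refine hsep z (gs (Fin.append x w)) hz1 ⟨i, by rw [hi]; exact hx⟩ fun j => ?_
    exact congrFun hz2 j

end Pool.Agent.K6.H3.FS
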