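import Mathlib
import Pool.Agent.W953.RD.CM

/-!
# Packing many graphs into one

Given graphs `G (α, β)` on `Fin n`, where `α` runs over a set `A` of vectors of natural numbers less
than `M` with the same sum of squares and `β` over `(ZMod p) ^ D`, the graph `big` has the vertices
`(i, y, w)` with `i < K`, `y` in `(ZMod p) ^ D` and `w < n`. The vertices `(i, y, w)` and
`(j, y', w')`, `i < j`, are adjacent if `y' = y + (j - i) α` for some `α` in `A` and `w`, `w'` are
adjacent in `G (α, y - i α)`. If `K M ≤ p` then every clique of `big` comes from a clique of one of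
the graphs, by strict convexity (compare the packing lemma of Dell and van Melkebeek).
-/

set_option autoImplicit false

namespace Pool.Agent.K6.H3.FS

open Finset Pool.Agent.W953.RD.CM

/-- There is a clique with `m` vertices. -/
def Clq {V : Type} (G : SimpleGraph V) (m : ℕ) : Prop :=
  ∃ f : Fin m → V, ∀ i j, i ≠ j → G.Adj (f i) (f j)

theorem clq_iff {V : Type} (G : SimpleGraph V) (m : ℕ) : ¬ G.CliqueFree m ↔ Clq G m := by
  classical
  constructor
  · intro h
    have e := SimpleGraph.topEmbeddingOfNotCliqueFree h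
    exact ⟨e, fun i j hij => e.map_rel_iff.2 hij⟩
  · rintro ⟨f, hf⟩ hfree
    have hinj : Function.Injective f := by
      intro i j hij
      by_contra hne
      have := hf i j hne
      rw [hij] at this
      exact this.ne rfl
    refine hfree (univ.image f) ⟨?_, ?_⟩
    · intro a ha b hb hab
      simp only [coe_image, coe_univ, Set.image_univ, Set.mem_range] at ha hb
      obtain ⟨i, rfl⟩ := ha
      obtain ⟨j, rfl⟩ := hb
      exact hf i j fun h => hab (by rw [h])
    · rw [Finset.card_image_of_injective _ hinj, Finset.card_univ, Fintype.card_fin]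

section pack

variable {K D p n : ℕ} (A : Finset (Fin D → ℕ))

/-- the graphs are numbered by slopes and intercepts -/
abbrev Idx (A : Finset (Fin D → ℕ)) (p : ℕ) : Type := {α // α ∈ A} × (Fin D → ZMod p)

/-- the vertices of the large graph -/
abbrev Vx (K D p n : ℕ) : Type := Fin K × (Fin D → ZMod p) × Fin n

/-- the slope `α` between the vertices `a` and `b` -/
def Slope (a b : Vx K D p n) (α : Fin D → ℕ) : Prop :=
  ∀ i, b.2.1 i = a.2.1 i + ((b.1.val - a.1.val : ℕ) : ZMod p) * (α i : ZMod p)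

/-- the intercept -/
def icp (a : Vx K D p n) (α : Fin D → ℕ) : Fin D → ZMod p :=
  fun i => a.2.1 i - ((a.1.val : ℕ) : ZMod p) * (α i : ZMod p)

/-- adjacency of vertices in increasing order -/
def Rel (G : Idx A p → SimpleGraph (Fin n)) (a b : Vx K D p n) : Prop :=
  a.1 < b.1 ∧ ∃ α : {α // α ∈ A}, Slope a b α.1 ∧ (G (α, icp a α.1)).Adj a.2.2 b.2.2

/-- the large graph -/
def big (G : Idx A p → SimpleGraph (Fin n)) : SimpleGraph (Vx K D p n) :=
  SimpleGraph.fromRel (Rel A G)

variable {A}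

theorem big_adj {G : Idx A p → SimpleGraph (Fin n)} {a b : Vx K D p n} :
    (big A G).Adj a b ↔ Rel A G a b ∨ Rel A G b a := by
  unfold big
  rw [SimpleGraph.fromRel_adj]
  constructor
  · exact fun h => h.2
  · intro h
    refine ⟨?_, h⟩
    rintro rfl
    rcases h with h | h <;> exact lt_irrefl _ h.1

variable {M r : ℕ}

/-- equations between small numbers can be read in `ℕ` -/
theorem nat_of_zmod {a b : ℕ} (ha : a < p) (hb : b < p) (h : (a : ZMod p) = b) : a = b := by
  have := (ZMod.natCast_eq_natCast_iff' a b p).1 h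
  rwa [Nat.mod_eq_of_lt ha, Nat.mod_eq_of_lt hb] at this

/-- the slope is unique -/
theorem slope_unique (hM : ∀ α ∈ A, ∀ i, α i < M) (hp : K * M ≤ p) {a b : Vx K D p n}
    (hab : a.1 < b.1) {α α' : Fin D → ℕ} (hα : α ∈ A) (hα' : α' ∈ A) (h : Slope a b α)
    (h' : Slope a b α') : α = α' := by
  funext i
  have h1 : ((b.1.val - a.1.val : ℕ) : ZMod p) * (α i : ZMod p) =
      ((b.1.val - a.1.val : ℕ) : ZMod p) * (α' i : ZMod p) := by
    have := (h i).symm.trans (h' i)
    exact add_left_cancel this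
  have hk : b.1.val - a.1.val < K := by have := b.1.isLt; omega
  have hpos : 0 < b.1.val - a.1.val := by have : a.1.val < b.1.val := hab; omega
  have h2 : (b.1.val - a.1.val) * α i = (b.1.val - a.1.val) * α' i := by
    apply nat_of_zmod (p := p)
    · calc (b.1.val - a.1.val) * α i < K * M := Nat.mul_lt_mul'' hk (hM α hα i)
        _ ≤ p := hp
    · calc (b.1.val - a.1.val) * α' i < K * M := Nat.mul_lt_mul'' hk (hM α' hα' i)
        _ ≤ p := hp
    · push_cast
      exact h1
  exact Nat.eq_of_mul_eq_mul_left hpos h2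

/-- strict convexity -/
theorem convex {u w : ℕ} (hu : 0 < u) (hw : 0 < w) {x y z : Fin D → ℕ}
    (hx : ∑ i, x i ^ 2 = r) (hy : ∑ i, y i ^ 2 = r) (hz : ∑ i, z i ^ 2 = r)
    (h : ∀ i, (u + w) * z i = u * x i + w * y i) : x = y ∧ z = x := by
  have hx' : ∑ i, (x i : ℤ) ^ 2 = r := by exact_mod_cast congrArg (fun t : ℕ => (t : ℤ)) hx
  have hy' : ∑ i, (y i : ℤ) ^ 2 = r := by exact_mod_cast congrArg (fun t : ℕ => (t : ℤ)) hy
  have hz' : ∑ i, (z i : ℤ) ^ 2 = r := by exact_mod_cast congrArg (fun t : ℕ => (t : ℤ)) hz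
  have h' : ∀ i, ((u : ℤ) + w) * z i = u * x i + w * y i := fun i => by exact_mod_cast h i
  have e1 : ∑ i, (((u : ℤ) + w) * z i) ^ 2 = ((u : ℤ) + w) ^ 2 * r := by
    rw [← hz', Finset.mul_sum]
    exact Finset.sum_congr rfl fun i _ => by ring
  have e2 : ∑ i, (((u : ℤ) + w) * z i) ^ 2 =
      (u : ℤ) ^ 2 * r + (w : ℤ) ^ 2 * r + 2 * u * w * ∑ i, (x i : ℤ) * y i := by
    have : ∀ i, (((u : ℤ) + w) * z i) ^ 2 = (u : ℤ) ^ 2 * (x i : ℤ) ^ 2 +
        (w : ℤ) ^ 2 * (y i : ℤ) ^ 2 + 2 * u * w * ((x i : ℤ) * y i) := fun i => by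
      rw [h' i]; ring
    rw [Finset.sum_congr rfl fun i _ => this i, Finset.sum_add_distrib, Finset.sum_add_distrib,
      ← Finset.mul_sum, ← Finset.mul_sum, ← Finset.mul_sum, hx', hy']
  have e3 : ∑ i, (x i : ℤ) * y i = r := by
    have h1 : (2 * (u : ℤ) * w) * ∑ i, (x i : ℤ) * y i = (2 * (u : ℤ) * w) * r := by
      linarith [e1, e2, (by ring : ((u : ℤ) + w) ^ 2 * r = (u : ℤ) ^ 2 * r + (w : ℤ) ^ 2 * r +
        2 * u * w * r)]
    have h2 : (2 * (u : ℤ) * w) ≠ 0 := by positivity
    exact mul_left_cancel₀ h2 h1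
  have e4 : ∑ i, ((x i : ℤ) - y i) ^ 2 = 0 := by
    have : ∀ i, ((x i : ℤ) - y i) ^ 2 = (x i : ℤ) ^ 2 + (y i : ℤ) ^ 2 - 2 * ((x i : ℤ) * y i) :=
      fun i => by ring
    rw [Finset.sum_congr rfl fun i _ => this i, Finset.sum_sub_distrib, Finset.sum_add_distrib,
      ← Finset.mul_sum, hx', hy', e3]
    ring
  have hxy : x = y := by
    funext i
    have := (Finset.sum_eq_zero_iff_of_nonneg fun i _ => sq_nonneg _).1 e4 i (Finset.mem_univ i)
    have h0 : (x i : ℤ) - y i = 0 := pow_eq_zero_iff (two_ne_zero) |>.1 this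
    have : (x i : ℤ) = y i := by linarith
    exact_mod_cast this
  refine ⟨hxy, ?_⟩
  funext i
  have := h i
  rw [← hxy, ← add_mul] at this
  exact Nat.eq_of_mul_eq_mul_left (by omega) this

/-- three slopes -/
theorem slopes_eq (hM : ∀ α ∈ A, ∀ i, α i < M) (hr : ∀ α ∈ A, ∑ i, α i ^ 2 = r) (hp : K * M ≤ p)
    {a b c : Vx K D p n} (hab : a.1 < b.1) (hbc : b.1 < c.1) {α β γ : Fin D → ℕ} (hα : α ∈ A)
    (hβ : β ∈ A) (hγ : γ ∈ A) (h1 : Slope a b α) (h2 : Slope b c β) (h3 : Slope a c γ) :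
    α = β ∧ γ = α := by
  have hab' : a.1.val < b.1.val := hab
  have hbc' : b.1.val < c.1.val := hbc
  have hc := c.1.isLt
  obtain ⟨u, hu⟩ : ∃ u, u = b.1.val - a.1.val := ⟨_, rfl⟩
  obtain ⟨w, hw⟩ : ∃ w, w = c.1.val - b.1.val := ⟨_, rfl⟩
  have huw : c.1.val - a.1.val = u + w := by omega
  refine convex (u := u) (w := w) (r := r) (by omega) (by omega) (hr α hα) (hr β hβ) (hr γ hγ) ?_
  intro i
  apply nat_of_zmod (p := p)
  · calc (u + w) * γ i < K * M := Nat.mul_lt_mul'' (by omega) (hM γ hγ i)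
      _ ≤ p := hp
  · calc u * α i + w * β i ≤ u * (M - 1) + w * (M - 1) :=
          Nat.add_le_add (Nat.mul_le_mul_left _ (by have := hM α hα i; omega))
            (Nat.mul_le_mul_left _ (by have := hM β hβ i; omega))
      _ = (u + w) * (M - 1) := by ring
      _ < K * M := Nat.mul_lt_mul'' (by omega) (by have := hM α hα i; omega)
      _ ≤ p := hp
  · have e1 := h1 i
    have e2 := h2 i
    have e3 := h3 i
    rw [← hu] at e1
    rw [← hw] at e2
    rw [huw] at e3
    rw [e2, e1] at e3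
    push_cast
    push_cast at e3
    linear_combination -e3

/-- cliques of the large graph come from cliques of one of the graphs -/
theorem clq_of_big (hM : ∀ α ∈ A, ∀ i, α i < M) (hr : ∀ α ∈ A, ∑ i, α i ^ 2 = r)
    (hp : K * M ≤ p) (hne : Nonempty (Idx A p)) {G : Idx A p → SimpleGraph (Fin n)} {m : ℕ}
    (h : Clq (big (K := K) A G) m) : ∃ i, Clq (G i) m := by
  obtain ⟨f, hf⟩ := h
  by_cases hm : m ≤ 1
  · obtain ⟨i₀⟩ := hne
    refine ⟨i₀, fun j => (f j).2.2, fun i j hij => absurd (Fin.ext ?_) hij⟩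
    have := i.isLt
    have := j.isLt
    omega
  push Not at hm
  -- the vertex with the smallest first coordinate
  obtain ⟨a, -, ha⟩ := Finset.exists_min_image (univ : Finset (Fin m)) (fun j => (f j).1)
    ⟨⟨0, by omega⟩, Finset.mem_univ _⟩
  have hinj : ∀ i j, i ≠ j → (f i).1 ≠ (f j).1 := by
    intro i j hij
    rcases big_adj.1 (hf i j hij) with h | h
    · exact h.1.ne
    · exact h.1.ne'
  have hmin : ∀ j, j ≠ a → (f a).1 < (f j).1 := fun j hj =>
    lt_of_le_of_ne (ha j (Finset.mem_univ j)) (hinj a j (Ne.symm hj))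
  have hrel : ∀ i j, (f i).1 < (f j).1 → Rel A G (f i) (f j) := by
    intro i j hij
    rcases big_adj.1 (hf i j (fun h => by rw [h] at hij; exact lt_irrefl _ hij)) with h | h
    · exact h
    · exact absurd h.1 (not_lt.2 hij.le)
  -- all slopes are equal
  obtain ⟨b, hb⟩ : ∃ b, b ≠ a := by
    by_cases h0 : a = ⟨0, by omega⟩
    · exact ⟨⟨1, by omega⟩, by rw [h0]; intro h; simp [Fin.ext_iff] at h⟩
    · exact ⟨⟨0, by omega⟩, Ne.symm h0⟩
  obtain ⟨-, α, hα, -⟩ := hrel a b (hmin b hb)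
  have key : ∀ c, c ≠ a → Slope (f a) (f c) α.1 := by
    intro c hc
    by_cases hcb : c = b
    · rw [hcb]; exact hα
    obtain ⟨-, γ, hγ, -⟩ := hrel a c (hmin c hc)
    rcases lt_or_gt_of_ne (hinj b c (Ne.symm hcb)) with h | h
    · obtain ⟨-, β, hβ, -⟩ := hrel b c h
      obtain ⟨e1, e2⟩ := slopes_eq hM hr hp (hmin b hb) h α.2 β.2 γ.2 hα hβ hγ
      rw [← e2]; exact hγ
    · obtain ⟨-, β, hβ, -⟩ := hrel c b h
      obtain ⟨e1, e2⟩ := slopes_eq hM hr hp (hmin c hc) h γ.2 β.2 α.2 hγ hβ hα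
      rw [e2]; exact hγ
  have key2 : ∀ c d, (f c).1 < (f d).1 → Slope (f c) (f d) α.1 := by
    intro c d hcd
    have hd : d ≠ a := by
      rintro rfl
      exact absurd hcd (not_lt.2 (ha c (Finset.mem_univ c)))
    by_cases hc : c = a
    · rw [hc]; exact key d hd
    obtain ⟨-, β, hβ, -⟩ := hrel c d hcd
    obtain ⟨e1, e2⟩ := slopes_eq hM hr hp (hmin c hc) hcd α.2 β.2 α.2 (key c hc) hβ (key d hd)
    rw [e1]; exact hβ
  have key3 : ∀ c, icp (f c) α.1 = icp (f a) α.1 := by
    intro c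
    by_cases hc : c = a
    · rw [hc]
    funext i
    unfold icp
    rw [key c hc i]
    have hlt : (f a).1.val < (f c).1.val := hmin c hc
    have : (((f c).1.val - (f a).1.val : ℕ) : ZMod p) = ((f c).1.val : ZMod p) - (f a).1.val := by
      rw [Nat.cast_sub hlt.le]
    rw [this]
    ring
  refine ⟨(α, icp (f a) α.1), fun j => (f j).2.2, fun i j hij => ?_⟩
  have main : ∀ i j, (f i).1 < (f j).1 →
      (G (α, icp (f a) α.1)).Adj (f i).2.2 (f j).2.2 := by
    intro i j h
    obtain ⟨-, β, hβ, hadj⟩ := hrel i j h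
    have e : α = β := Subtype.ext (slope_unique hM hp h α.2 β.2 (key2 i j h) hβ)
    rw [← e, key3 i] at hadj
    exact hadj
  rcases lt_or_gt_of_ne (hinj i j hij) with h | h
  · exact main i j h
  · exact (main j i h).symm

/-- a clique of one of the graphs with one vertex for each `i < K` gives a clique -/
theorem big_of_clq {G : Idx A p → SimpleGraph (Fin n)} {i₀ : Idx A p} (h : Clq (G i₀) K) :
    Clq (big (K := K) A G) K := by
  obtain ⟨f, hf⟩ := h
  obtain ⟨α, β⟩ := i₀
  refine ⟨fun i => (i, (fun t => β t + ((i.val : ℕ) : ZMod p) * (α.1 t : ZMod p)), f i),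
    fun i j hij => ?_⟩
  have main : ∀ i j : Fin K, i < j → Rel A G
      ((i, (fun t => β t + ((i.val : ℕ) : ZMod p) * (α.1 t : ZMod p)), f i) : Vx K D p n)
      (j, (fun t => β t + ((j.val : ℕ) : ZMod p) * (α.1 t : ZMod p)), f j) := by
    intro i j h
    refine ⟨h, α, fun t => ?_, ?_⟩
    · have hlt : i.val < j.val := h
      show β t + _ = β t + _ + ((j.val - i.val : ℕ) : ZMod p) * _
      rw [Nat.cast_sub hlt.le]
      ring
    · have : icp ((i, (fun t => β t + ((i.val : ℕ) : ZMod p) * (α.1 t : ZMod p)), f i) :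
          Vx K D p n) α.1 = β := by
        funext t
        unfold icp
        simp
      rw [this]
      exact hf i j h.ne
  rw [big_adj]
  rcases lt_or_gt_of_ne hij with h | h
  · exact Or.inl (main i j h)
  · exact Or.inr (main j i h)

end pack

end Pool.Agent.K6.H3.FS
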