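import Mathlib
import Pool.Agent.K6.H3.FS.Pack
import Pool.Agent.K6.H3.FS.Circ

/-!
# The bits of the packed graph
-/

set_option autoImplicit false

namespace Pool.Agent.K6.H3.FS

open Finset Pool.Agent.W953.RD.CM Pool.Agent.H540R2 Pool.Agent.H540R2.Circuit

theorem graph_adj {n : ℕ} {x : Fin (n.choose 2) → Bool} {i j : Fin n} :
    (graph x).Adj i j ↔ (∃ h : i < j, x (pairNo n ⟨(i, j), h⟩) = true) ∨
      ∃ h : j < i, x (pairNo n ⟨(j, i), h⟩) = true := by
  unfold graph
  rw [SimpleGraph.fromRel_adj]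
  constructor
  · exact fun h => h.2
  · intro h
    refine ⟨?_, h⟩
    rintro rfl
    rcases h with ⟨h, -⟩ | ⟨h, -⟩ <;> exact lt_irrefl _ h

section

variable {K D p n : ℕ} (A : Finset (Fin D → ℕ))

open Classical in
/-- the bit of a pair of vertices, in increasing order -/
noncomputable def src (a b : Vx K D p n) : Option (Idx A p × Fin (n.choose 2)) :=
  if h : a.1 < b.1 ∧ ∃ α : {α // α ∈ A}, Slope a b α.1 then
    if hw : a.2.2 < b.2.2 then
      some ((h.2.choose, icp a h.2.choose.1), pairNo n ⟨(a.2.2, b.2.2), hw⟩)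
    else if hw : b.2.2 < a.2.2 then
      some ((h.2.choose, icp a h.2.choose.1), pairNo n ⟨(b.2.2, a.2.2), hw⟩)
    else none
  else none

/-- the bit -/
noncomputable def bit (z : Idx A p → Fin (n.choose 2) → Bool) (a b : Vx K D p n) : Bool :=
  match src A a b with
  | none => false
  | some (i, e) => z i e

variable {A} {M : ℕ}

theorem bit_iff (hM : ∀ α ∈ A, ∀ i, α i < M) (hp : K * M ≤ p)
    (z : Idx A p → Fin (n.choose 2) → Bool) (a b : Vx K D p n) :
    bit A z a b = true ↔ Rel A (fun i => graph (z i)) a b := by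
  unfold bit src Rel
  by_cases h : a.1 < b.1 ∧ ∃ α : {α // α ∈ A}, Slope a b α.1
  · have hu : ∀ α : {α // α ∈ A}, Slope a b α.1 → α = h.2.choose := fun α hα =>
      Subtype.ext (slope_unique hM hp h.1 α.2 h.2.choose.2 hα h.2.choose_spec)
    have hR : (a.1 < b.1 ∧ ∃ α : {α // α ∈ A}, Slope a b α.1 ∧
        (graph (z (α, icp a α.1))).Adj a.2.2 b.2.2) ↔
        (graph (z (h.2.choose, icp a h.2.choose.1))).Adj a.2.2 b.2.2 := by
      constructor
      · rintro ⟨-, α, h1, h2⟩
        rw [← hu α h1]
        exact h2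
      · intro h1
        exact ⟨h.1, _, h.2.choose_spec, h1⟩
    rw [hR, graph_adj, dif_pos h]
    by_cases hw : a.2.2 < b.2.2
    · rw [dif_pos hw]
      constructor
      · intro h1
        exact Or.inl ⟨hw, h1⟩
      · rintro (⟨_, h1⟩ | ⟨h1, -⟩)
        · exact h1
        · exact absurd h1 (not_lt.2 hw.le)
    · rw [dif_neg hw]
      by_cases hw' : b.2.2 < a.2.2
      · rw [dif_pos hw']
        constructor
        · intro h1
          exact Or.inr ⟨hw', h1⟩
        · rintro (⟨h1, -⟩ | ⟨_, h1⟩)
          · exact absurd h1 hw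
          · exact h1
      · rw [dif_neg hw']
        constructor
        · intro h1
          exact absurd h1 (by simp)
        · rintro (⟨h1, -⟩ | ⟨h1, -⟩)
          · exact absurd h1 hw
          · exact absurd h1 hw'
  · rw [dif_neg h]
    constructor
    · intro h1
      exact absurd h1 (by simp)
    · rintro ⟨h1, α, h2, -⟩
      exact absurd ⟨h1, α, h2⟩ h

variable (A) in
open Classical in
/-- the bit of a pair of vertices -/
noncomputable def src2 (a b : Vx K D p n) : Option (Idx A p × Fin (n.choose 2)) :=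
  if a.1 < b.1 then src A a b else src A b a

theorem src2_iff (hM : ∀ α ∈ A, ∀ i, α i < M) (hp : K * M ≤ p)
    (z : Idx A p → Fin (n.choose 2) → Bool) (a b : Vx K D p n) :
    (match src2 A a b with
      | none => false
      | some (i, e) => z i e) = true ↔ (big A fun i => graph (z i)).Adj a b := by
  rw [big_adj, ← bit_iff hM hp, ← bit_iff hM hp]
  unfold src2
  by_cases h : a.1 < b.1
  · rw [if_pos h]
    have h2 : ¬ bit A z b a = true := by
      rw [bit_iff hM hp]
      exact fun h' => absurd h'.1 (not_lt.2 h.le)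
    constructor
    · exact fun h' => Or.inl h'
    · rintro (h' | h')
      · exact h'
      · exact absurd h' h2
  · rw [if_neg h]
    have h2 : ¬ bit A z a b = true := by
      rw [bit_iff hM hp]
      exact fun h' => absurd h'.1 h
    constructor
    · exact fun h' => Or.inr h'
    · rintro (h' | h')
      · exact absurd h' h2
      · exact h'

variable (A) in
/-- the sources of the bits of the packed graph -/
noncomputable def srcN {N : ℕ} (E : Vx K D p n ≃ Fin N) :
    Fin (N.choose 2) → Option (Idx A p × Fin (n.choose 2)) :=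
  fun e => src2 A (E.symm ((pairNo N).symm e).1.1) (E.symm ((pairNo N).symm e).1.2)

theorem graph_pull (hM : ∀ α ∈ A, ∀ i, α i < M) (hp : K * M ≤ p) {N : ℕ}
    (E : Vx K D p n ≃ Fin N) (z : Idx A p → Fin (n.choose 2) → Bool) (u v : Fin N) :
    (graph (pull (srcN A E) z)).Adj u v ↔
      (big A fun i => graph (z i)).Adj (E.symm u) (E.symm v) := by
  have key : ∀ u v : Fin N, ∀ h : u < v, (pull (srcN A E) z (pairNo N ⟨(u, v), h⟩) = true ↔
      (big A fun i => graph (z i)).Adj (E.symm u) (E.symm v)) := by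
    intro u v h
    rw [← src2_iff hM hp]
    unfold pull srcN
    rw [Equiv.symm_apply_apply]
    dsimp only
    generalize src2 A (E.symm u) (E.symm v) = q
    cases q <;> rfl
  rw [graph_adj]
  constructor
  · rintro (⟨h, h1⟩ | ⟨h, h1⟩)
    · exact (key u v h).1 h1
    · exact ((key v u h).1 h1).symm
  · intro h
    have hne : u ≠ v := by
      rintro rfl
      exact h.ne rfl
    rcases lt_or_gt_of_ne hne with h' | h'
    · exact Or.inl ⟨h', (key u v h').2 h⟩
    · exact Or.inr ⟨h', (key v u h').2 h.symm⟩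

theorem clq_pull (hM : ∀ α ∈ A, ∀ i, α i < M) (hp : K * M ≤ p) {N : ℕ}
    (E : Vx K D p n ≃ Fin N) (z : Idx A p → Fin (n.choose 2) → Bool) (m : ℕ) :
    Clq (graph (pull (srcN A E) z)) m ↔ Clq (big (K := K) A fun i => graph (z i)) m := by
  constructor
  · rintro ⟨f, hf⟩
    exact ⟨fun i => E.symm (f i), fun i j hij => (graph_pull hM hp E z _ _).1 (hf i j hij)⟩
  · rintro ⟨f, hf⟩
    refine ⟨fun i => E (f i), fun i j hij => (graph_pull hM hp E z _ _).2 ?_⟩
    rw [Equiv.symm_apply_apply, Equiv.symm_apply_apply]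
    exact hf i j hij

end

/-- **From compressions of the clique problem to nondeterministic circuits**, without estimates. -/
theorem packed {s k D M r p n N B : ℕ} (A : Finset (Fin D → ℕ))
    (hM : ∀ α ∈ A, ∀ i, α i < M) (hr : ∀ α ∈ A, ∑ i, α i ^ 2 = r) (hp : s * M ≤ p)
    (hp0 : 0 < p) (hA : A.Nonempty)
    (hN : N = s * (p ^ D * n)) (hB : B ≤ A.card * p ^ D)
    (C : Circuit (N.choose 2)) (o : Fin B → Node (N.choose 2))
    (ho : ∀ i j, (o i).wires j ≠ 0 → j < C.size)
    (hC : ∀ x y : Fin (N.choose 2) → Bool,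
      (∀ i, (o i).eval x (C.val x) = (o i).eval y (C.val y)) →
      (graph x).CliqueFree k → (graph y).CliqueFree s) :
    ∃ (m : ℕ) (Q : Circuit (n.choose 2 + m)), m = A.card * p ^ D * n.choose 2 ∧
      Q.size ≤ C.size + A.card * p ^ D * (6 * n.choose 2 + 1) +
        (n.choose 2 + 1) * (2 * B + 1) + 1 ∧
      (∀ x, (graph x).CliqueFree k → ∃ w, Q.eval (Fin.append x w) = true) ∧
      ∀ x, ¬ (graph x).CliqueFree s → ∀ w, Q.eval (Fin.append x w) = false := by
  classical
  have : NeZero p := ⟨hp0.ne'⟩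
  have hι : Fintype.card (Idx A p) = A.card * p ^ D := by
    rw [Fintype.card_prod, Fintype.card_coe, Fintype.card_fun, ZMod.card, Fintype.card_fin]
  have hV : Fintype.card (Vx s D p n) = N := by
    rw [Fintype.card_prod, Fintype.card_prod, Fintype.card_fun, ZMod.card, Fintype.card_fin,
      Fintype.card_fin, Fintype.card_fin, hN]
  obtain ⟨E⟩ : Nonempty (Vx s D p n ≃ Fin N) := ⟨Fintype.equivFinOfCardEq hV⟩
  have hιpos : 0 < Fintype.card (Idx A p) := by
    rw [hι]
    exact Nat.mul_pos hA.card_pos (pow_pos hp0 _)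
  have hne : Nonempty (Idx A p) := Fintype.card_pos_iff.1 hιpos
  obtain ⟨Q, h1, h2, h3⟩ := fs_circuit hιpos C o ho (by rw [hι]; exact hB) (srcN A E)
    (fun x => ¬ (graph x).CliqueFree s) (fun x => (graph x).CliqueFree k)
    (fun z z' hz hz' heq => by
      obtain ⟨i, hi⟩ := hz'
      have h1 : (graph (pull (srcN A E) z)).CliqueFree k := by
        by_contra hcon
        obtain ⟨j, hj⟩ := clq_of_big hM hr hp hne
          ((clq_pull hM hp E z k).1 ((clq_iff _ _).1 hcon))
        exact (clq_iff _ _).2 hj (hz j)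
      have h2 : ¬ (graph (pull (srcN A E) z')).CliqueFree s := by
        rw [clq_iff, clq_pull hM hp E z' s]
        exact big_of_clq ((clq_iff _ _).1 hi)
      exact h2 (hC _ _ heq h1))
  refine ⟨_, Q, by rw [hι], ?_, h2, h3⟩
  rw [← hι]
  exact h1

end Pool.Agent.K6.H3.FS
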