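import Mathlib
import Pool.Agent.K6.H3.FS.Bits

/-!
# Compressions of the clique problem give nondeterministic circuits for graphs without clique
-/

set_option autoImplicit false

namespace Pool.Agent.K6.H3.FS

open Finset Pool.Agent.W953.RD.CM Pool.Agent.H540R2 Pool.Agent.H540R2.Circuit
open Pool.Agent.H679R2.M1 (Clause Sat card_clause)

/-- Nonuniform compressions of the clique problem (cliques of `s k` vertices versus no clique of `k`
vertices, `k` is the parameter) to `G k * n ^ (2 - 1 / r)` bits, computed by circuits of fpt size: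
the `B` output bits of a graph without clique of `k` vertices and those of a graph with a clique of
`s k` vertices are different. Nothing is assumed on how the answer is obtained from these bits. -/
def Compressible (s : ℕ → ℕ) (r : ℕ) : Prop :=
  ∃ (f G : ℕ → ℕ) (c : ℕ), ∀ k, ∀ n ≥ 2, ∃ B : ℕ, B ^ r ≤ G k * n ^ (2 * r - 1) ∧
    ∃ (C : Circuit (n.choose 2)) (o : Fin B → Node (n.choose 2)), C.size ≤ f k * n ^ c ∧
      (∀ i j, (o i).wires j ≠ 0 → j < C.size) ∧
      ∀ x y, (∀ i, (o i).eval x (C.val x) = (o i).eval y (C.val y)) →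
        (graph x).CliqueFree k → (graph y).CliqueFree (s k)

/-- Nonuniform nondeterministic circuits of fpt size, with one exponent `c` for all `k`, for the
graphs without clique: they accept the graphs without clique of `k` vertices, for some guess `w`,
and reject the graphs with a clique of `s k` vertices, for all guesses. -/
def CoNondet (s : ℕ → ℕ) : Prop :=
  ∃ (F : ℕ → ℕ) (c : ℕ), ∀ k, ∀ n ≥ 2, ∃ m ≤ F k * n ^ c, ∃ Q : Circuit (n.choose 2 + m),
    Q.size ≤ F k * n ^ c ∧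
    (∀ x, (graph x).CliqueFree k → ∃ w, Q.eval (Fin.append x w) = true) ∧
    ∀ x, ¬ (graph x).CliqueFree (s k) → ∀ w, Q.eval (Fin.append x w) = false

/-- large spheres -/
theorem sphere (D M : ℕ) (hD : 0 < D) (hM : 0 < M) : ∃ (A : Finset (Fin D → ℕ)) (r : ℕ),
    (∀ α ∈ A, ∀ i, α i < M) ∧ (∀ α ∈ A, ∑ i, α i ^ 2 = r) ∧ M ^ D ≤ D * M ^ 2 * A.card ∧
    A.card ≤ M ^ D := by
  classical
  set X : Finset (Fin D → ℕ) := Fintype.piFinset fun _ => range M with hX
  have hXc : X.card = M ^ D := by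
    rw [hX, Fintype.card_piFinset]
    simp
  have hmem : ∀ α ∈ X, ∀ i, α i < M := by
    intro α hα i
    rw [hX, Fintype.mem_piFinset] at hα
    exact Finset.mem_range.1 (hα i)
  have hmap : ∀ α ∈ X, ∑ i, α i ^ 2 ∈ range (D * M ^ 2) := by
    intro α hα
    rw [Finset.mem_range]
    calc ∑ i, α i ^ 2 < ∑ _i : Fin D, M ^ 2 :=
          Finset.sum_lt_sum_of_nonempty (by
            have : Nonempty (Fin D) := ⟨⟨0, hD⟩⟩
            exact Finset.univ_nonempty) fun i _ =>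
            Nat.pow_lt_pow_left (hmem α hα i) (by norm_num)
      _ = D * M ^ 2 := by rw [Finset.sum_const, Finset.card_univ, Fintype.card_fin, smul_eq_mul]
  obtain ⟨r, hr⟩ : ∃ r, M ^ D ≤ D * M ^ 2 * (X.filter fun α => ∑ i, α i ^ 2 = r).card := by
    by_contra hcon
    push Not at hcon
    have h1 : X.card = ∑ r ∈ range (D * M ^ 2), (X.filter fun α => ∑ i, α i ^ 2 = r).card :=
      Finset.card_eq_sum_card_fiberwise hmap
    have hne : (range (D * M ^ 2)).Nonempty := by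
      rw [Finset.nonempty_range_iff]
      positivity
    have h2 : D * M ^ 2 * M ^ D < D * M ^ 2 * M ^ D := by
      calc D * M ^ 2 * M ^ D
          = ∑ r ∈ range (D * M ^ 2),
              D * M ^ 2 * (X.filter fun α => ∑ i, α i ^ 2 = r).card := by
            rw [← Finset.mul_sum, ← h1, hXc]
        _ < ∑ _r ∈ range (D * M ^ 2), M ^ D :=
            Finset.sum_lt_sum_of_nonempty hne fun r _ => hcon r
        _ = D * M ^ 2 * M ^ D := by rw [Finset.sum_const, Finset.card_range, smul_eq_mul]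
    exact lt_irrefl _ h2
  refine ⟨X.filter fun α => ∑ i, α i ^ 2 = r, r, ?_, ?_, hr, ?_⟩
  · intro α hα i
    exact hmem α (Finset.mem_filter.1 hα).1 i
  · intro α hα
    exact (Finset.mem_filter.1 hα).2
  · exact (Finset.card_filter_le _ _).trans hXc.le

/-- the estimate for the number of graphs that are packed -/
theorem enough {r S n G M t D : ℕ} (hD : D = 2 * r + 1) (hr : 1 ≤ r) (hS : 1 ≤ S)
    (hM : (D * S ^ (2 * r - 1)) ^ r * G * (S * n) ^ (2 * r - 1) ≤ M) (hM0 : 0 < M)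
    (ht : (S * M) ^ D * M ^ D ≤ D * M ^ 2 * t) :
    G * (S * ((S * M) ^ D * n)) ^ (2 * r - 1) ≤ t ^ r := by
  subst hD
  obtain ⟨q, rfl⟩ : ∃ q, r = q + 1 := ⟨r - 1, by omega⟩
  have e1 : 2 * (q + 1) - 1 = 2 * q + 1 := by omega
  have e2 : 2 * (q + 1) + 1 = 2 * q + 3 := by omega
  rw [e1, e2] at *
  obtain ⟨p, hp⟩ : ∃ p, p = S * M := ⟨_, rfl⟩
  rw [← hp] at ht ⊢
  have hp0 : 0 < p := by rw [hp]; exact Nat.mul_pos hS hM0
  -- `t D S ^ (D - 2) ≥ p ^ (2 D - 2)`
  have h1 : p ^ (2 * q + 3) * M ^ (2 * q + 1) ≤ (2 * q + 3) * t := by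
    have : (p ^ (2 * q + 3) * M ^ (2 * q + 1)) * M ^ 2 ≤ ((2 * q + 3) * t) * M ^ 2 := by
      calc (p ^ (2 * q + 3) * M ^ (2 * q + 1)) * M ^ 2 = p ^ (2 * q + 3) * M ^ (2 * q + 3) := by
            ring
        _ ≤ (2 * q + 3) * M ^ 2 * t := ht
        _ = ((2 * q + 3) * t) * M ^ 2 := by ring
    exact Nat.le_of_mul_le_mul_right this (by positivity)
  have h2 : p ^ (4 * q + 4) ≤ (2 * q + 3) * S ^ (2 * q + 1) * t := by
    calc p ^ (4 * q + 4) = p ^ (2 * q + 3) * (S * M) ^ (2 * q + 1) := by rw [← hp]; ring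
      _ = S ^ (2 * q + 1) * (p ^ (2 * q + 3) * M ^ (2 * q + 1)) := by ring
      _ ≤ S ^ (2 * q + 1) * ((2 * q + 3) * t) := Nat.mul_le_mul_left _ h1
      _ = (2 * q + 3) * S ^ (2 * q + 1) * t := by ring
  have h3 : ((2 * q + 3) * S ^ (2 * q + 1)) ^ (q + 1) * G * (S * n) ^ (2 * q + 1) ≤ p := by
    refine hM.trans ?_
    rw [hp]
    exact Nat.le_mul_of_pos_left _ hS
  have h4 : ((2 * q + 3) * S ^ (2 * q + 1)) ^ (q + 1) *
      (G * (S * (p ^ (2 * q + 3) * n)) ^ (2 * q + 1)) ≤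
      ((2 * q + 3) * S ^ (2 * q + 1)) ^ (q + 1) * t ^ (q + 1) := by
    calc ((2 * q + 3) * S ^ (2 * q + 1)) ^ (q + 1) *
        (G * (S * (p ^ (2 * q + 3) * n)) ^ (2 * q + 1))
        = (((2 * q + 3) * S ^ (2 * q + 1)) ^ (q + 1) * G * (S * n) ^ (2 * q + 1)) *
            (p ^ (2 * q + 3)) ^ (2 * q + 1) := by
          rw [show S * (p ^ (2 * q + 3) * n) = (S * n) * p ^ (2 * q + 3) by ring, mul_pow (S * n)]
          ring
      _ ≤ p * (p ^ (2 * q + 3)) ^ (2 * q + 1) := Nat.mul_le_mul_right _ h3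
      _ = (p ^ (4 * q + 4)) ^ (q + 1) := by
          rw [← pow_mul, ← pow_mul, ← pow_succ']
          congr 1
          ring
      _ ≤ ((2 * q + 3) * S ^ (2 * q + 1) * t) ^ (q + 1) := Nat.pow_le_pow_left h2 _
      _ = _ := by rw [mul_pow]
  exact Nat.le_of_mul_le_mul_left h4 (by positivity)

/-- the constant circuit -/
theorem const_circuit (n : ℕ) : ∃ Q : Circuit n, Q.size = 0 ∧ ∀ x, Q.eval x = false := by
  refine ⟨(Circuit.empty n).setOut (.const false) (fun j hj => absurd rfl hj), rfl, fun x => ?_⟩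
  rw [Circuit.setOut_eval]
  rfl

/-- **Compressions give nondeterministic circuits.** -/
theorem coNondet_of_compressible {s : ℕ → ℕ} {r : ℕ} (hr : 1 ≤ r) (h : Compressible s r) :
    CoNondet s := by
  obtain ⟨f, G, c, h⟩ := h
  obtain ⟨D, hD⟩ : ∃ D, D = 2 * r + 1 := ⟨_, rfl⟩
  obtain ⟨e, he⟩ : ∃ e, e = 2 * r - 1 := ⟨_, rfl⟩
  -- `M ≤ W k * n ^ e`
  set W : ℕ → ℕ := fun k => (D * s k ^ e) ^ r * G k * s k ^ e + 1 with hW
  set U : ℕ → ℕ := fun k => (s k * W k + 1) ^ (2 * D + 1) with hU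
  refine ⟨fun k => f k * U k ^ c + 14 * U k, (2 * D * e + 1) * (c + 1) + 2, fun k n hn => ?_⟩
  rcases Nat.eq_zero_or_pos (s k) with hs | hs
  · -- there are no graphs without clique
    obtain ⟨B, -, C, o, -, -, hC⟩ := h k n hn
    have hno : ∀ x : Fin (n.choose 2) → Bool, ¬ (graph x).CliqueFree k := by
      intro x hx
      have h1 := hC x x (fun _ => rfl) hx
      rw [hs] at h1
      exact (h1 ∅) (by simp)
    obtain ⟨Q, q1, q2⟩ := const_circuit (n.choose 2 + 0)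
    exact ⟨0, Nat.zero_le _, Q, by rw [q1]; exact Nat.zero_le _,
      fun x hx => absurd hx (hno x), fun x _ w => q2 _⟩
  obtain ⟨S, hS⟩ : ∃ S, S = s k := ⟨_, rfl⟩
  rw [← hS] at hs
  have hn1 : 1 ≤ n := by omega
  obtain ⟨M, hM⟩ : ∃ M, M = (D * S ^ e) ^ r * G k * (S * n) ^ e + 1 := ⟨_, rfl⟩
  have hM0 : 0 < M := by omega
  have hMle : M ≤ W k * n ^ e := by
    rw [hM, hW]
    simp only
    have h3 : (S * n) ^ e = S ^ e * n ^ e := mul_pow _ _ _
    rw [← hS, h3, add_mul]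
    have h1 : 1 ≤ n ^ e := Nat.one_le_pow _ _ hn1
    have h2 : (D * S ^ e) ^ r * G k * (S ^ e * n ^ e) =
      (D * S ^ e) ^ r * G k * S ^ e * n ^ e := by ring
    rw [h2]
    omega
  obtain ⟨p, hp⟩ : ∃ p, p = S * M := ⟨_, rfl⟩
  have hp0 : 0 < p := by rw [hp]; exact Nat.mul_pos hs hM0
  have hple : p ≤ S * W k * n ^ e := by
    rw [hp, mul_assoc]
    exact Nat.mul_le_mul_left _ hMle
  obtain ⟨N, hN⟩ : ∃ N, N = S * (p ^ D * n) := ⟨_, rfl⟩
  have hN2 : 2 ≤ N := by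
    rw [hN]
    calc 2 ≤ n := hn
      _ ≤ S * (p ^ D * n) := by
        rw [← mul_assoc]
        exact Nat.le_mul_of_pos_left _ (Nat.mul_pos hs (pow_pos hp0 _))
  obtain ⟨B, hB, C, o, hCs, ho, hC⟩ := h k N hN2
  obtain ⟨A, ρ, a1, a2, a3, a4⟩ := sphere D M (by omega) hM0
  have hAc : A.Nonempty := by
    rw [← Finset.card_pos]
    rcases Nat.eq_zero_or_pos A.card with h0 | h0
    · rw [h0, mul_zero] at a3
      have : 0 < M ^ D := pow_pos hM0 _
      omega
    · exact h0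
  have hBt : B ≤ A.card * p ^ D := by
    have h1 : B ^ r ≤ (A.card * p ^ D) ^ r := by
      refine hB.trans ?_
      rw [hN, hp]
      refine enough (S := S) (M := M) hD hr hs ?_ hM0 ?_
      · rw [hM, he]
        omega
      · calc (S * M) ^ D * M ^ D ≤ (S * M) ^ D * (D * M ^ 2 * A.card) :=
              Nat.mul_le_mul_left _ a3
          _ = D * M ^ 2 * (A.card * (S * M) ^ D) := by ring
    exact (Nat.pow_le_pow_iff_left (by omega)).1 h1
  rw [← hS] at hC
  obtain ⟨m, Q, hm, hQ, hQ1, hQ2⟩ := packed (s := S) (k := k) A a1 a2 (by rw [hp]) hp0 hAc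
    hN hBt C o ho hC
  -- estimates
  obtain ⟨Y, hY⟩ : ∃ Y, Y = U k * n ^ (2 * D * e + 1) := ⟨_, rfl⟩
  obtain ⟨V, hV⟩ : ∃ V, V = S * W k + 1 := ⟨_, rfl⟩
  have hUV : U k = V ^ (2 * D + 1) := by rw [hU, hV, hS]
  have hV1 : 1 ≤ V := by omega
  have hpV : p ≤ V * n ^ e := hple.trans (Nat.mul_le_mul_right _ (by omega))
  have hSV : S ≤ V := by
    have h1 : 1 ≤ W k := by simp only [hW]; omega
    have : S ≤ S * W k := Nat.le_mul_of_pos_right _ h1
    omega
  have hNY : N ≤ Y := by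
    rw [hN, hY, hUV]
    calc S * (p ^ D * n) ≤ V * ((V * n ^ e) ^ D * n) := by gcongr
      _ = V ^ (D + 1) * n ^ (D * e + 1) := by rw [mul_pow, ← pow_mul]; ring
      _ ≤ V ^ (2 * D + 1) * n ^ (2 * D * e + 1) := by
          refine Nat.mul_le_mul (Nat.pow_le_pow_right hV1 (by omega))
            (Nat.pow_le_pow_right hn1 ?_)
          have : D * e ≤ 2 * D * e := Nat.mul_le_mul_right _ (by omega)
          omega
  have hMp : M ≤ p := by rw [hp]; exact Nat.le_mul_of_pos_left _ hs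
  have htY : A.card * p ^ D ≤ Y := by
    rw [hY, hUV]
    calc A.card * p ^ D ≤ M ^ D * p ^ D := Nat.mul_le_mul_right _ a4
      _ ≤ p ^ D * p ^ D := Nat.mul_le_mul_right _ (Nat.pow_le_pow_left hMp _)
      _ = p ^ (2 * D) := by ring
      _ ≤ (V * n ^ e) ^ (2 * D) := Nat.pow_le_pow_left hpV _
      _ = V ^ (2 * D) * n ^ (2 * D * e) := by rw [mul_pow, ← pow_mul]; ring
      _ ≤ V ^ (2 * D + 1) * n ^ (2 * D * e + 1) :=
          Nat.mul_le_mul (Nat.pow_le_pow_right hV1 (by omega))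
            (Nat.pow_le_pow_right hn1 (by omega))
  have ha : n.choose 2 ≤ n ^ 2 := Nat.choose_le_pow n 2
  have hn2 : 1 ≤ n ^ 2 := Nat.one_le_pow _ _ hn1
  have hY1 : 1 ≤ Y := hNY.trans' (by omega)
  obtain ⟨a, haa⟩ : ∃ a, a = n.choose 2 := ⟨_, rfl⟩
  obtain ⟨T, hT⟩ : ∃ T, T = A.card * p ^ D := ⟨_, rfl⟩
  obtain ⟨L, hL⟩ : ∃ L, L = n ^ 2 := ⟨_, rfl⟩
  have hYL : Y * L ≤ U k * n ^ ((2 * D * e + 1) * (c + 1) + 2) := by
    rw [hY, hL, mul_assoc, ← pow_add]
    refine Nat.mul_le_mul_left _ (Nat.pow_le_pow_right hn1 ?_)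
    have : 2 * D * e + 1 ≤ (2 * D * e + 1) * (c + 1) := Nat.le_mul_of_pos_right _ (by omega)
    omega
  have hYc : f k * N ^ c ≤ f k * U k ^ c * n ^ ((2 * D * e + 1) * (c + 1) + 2) := by
    calc f k * N ^ c ≤ f k * Y ^ c := Nat.mul_le_mul_left _ (Nat.pow_le_pow_left hNY _)
      _ = f k * U k ^ c * n ^ ((2 * D * e + 1) * c) := by
          rw [hY, mul_pow, ← pow_mul n]
          exact (mul_assoc _ _ _).symm
      _ ≤ _ := by
          refine Nat.mul_le_mul_left _ (Nat.pow_le_pow_right hn1 ?_)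
          have : (2 * D * e + 1) * c ≤ (2 * D * e + 1) * (c + 1) :=
            Nat.mul_le_mul_left _ (by omega)
          omega
  have hrest : T * (6 * a + 1) + (a + 1) * (2 * B + 1) + 1 ≤ 14 * (Y * L) := by
    have h1 : T * (6 * a + 1) ≤ Y * (7 * L) := by
      rw [hT]
      exact Nat.mul_le_mul htY (by rw [haa, hL]; omega)
    have h2 : (a + 1) * (2 * B + 1) ≤ (2 * L) * (3 * Y) :=
      Nat.mul_le_mul (by rw [haa, hL]; omega) (by omega)
    have h3 : 1 ≤ Y * L := Nat.mul_pos hY1 (by rw [hL]; exact hn2)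
    have h4 : Y * (7 * L) = 7 * (Y * L) := by ring
    have h5 : (2 * L) * (3 * Y) = 6 * (Y * L) := by ring
    omega
  have hfin : f k * N ^ c + 14 * (Y * L) ≤
      (f k * U k ^ c + 14 * U k) * n ^ ((2 * D * e + 1) * (c + 1) + 2) := by
    rw [add_mul]
    refine Nat.add_le_add hYc ?_
    rw [mul_assoc]
    exact Nat.mul_le_mul_left _ hYL
  refine ⟨m, ?_, Q, ?_, hQ1, ?_⟩
  · refine le_trans ?_ hfin
    rw [hm, ← hT, ← haa]
    have h1 : T * a ≤ Y * L := Nat.mul_le_mul (by rw [hT]; exact htY) (by rw [haa, hL]; exact ha)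
    omega
  · refine le_trans ?_ hfin
    have hQ' : Q.size ≤ C.size + T * (6 * a + 1) + (a + 1) * (2 * B + 1) + 1 := by
      rw [haa, hT]
      exact hQ
    omega
  · rw [← hS]
    exact hQ2

end Pool.Agent.K6.H3.FS
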