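import Mathlib
import Pool.Agent.K6.H3.FS.Main

/-!
# Truth-table reductions are compressions
-/

set_option autoImplicit false

namespace Pool.Agent.K6.H3.FS

open Finset Pool.Agent.W953.RD.CM Pool.Agent.H540R2 Pool.Agent.H540R2.Circuit
open Pool.Agent.H679R2.M1 (Clause Sat card_clause)

/-- There are nonuniform truth-table reductions of fpt size from the clique problem (with gap `s k`
versus `k`) to `p-log-SAT(Γ_{1,d})` with at most `G k * n ^ (2 - 1 / r)` questions. The evaluation of
the answers is arbitrary. -/
def RedTT (s : ℕ → ℕ) (d r : ℕ) : Prop :=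
  ∃ (f g G : ℕ → ℕ) (c : ℕ), ∀ k, ∀ n ≥ 2, ∃ v ≤ g k * (Nat.log 2 n + 1),
    ∃ q : ℕ, q ^ r ≤ G k * n ^ (2 * r - 1) ∧
      ∃ R : TT n v d q, R.C.size ≤ f k * n ^ c ∧ ∀ x, R.Right (s k) k x

theorem redTT_of_red {s : ℕ → ℕ} {d : ℕ} (h : Red s d) : RedTT s d 1 := by
  obtain ⟨f, g, c, h⟩ := h
  refine ⟨f, g, fun _ => 1, c, fun k n hn => ?_⟩
  obtain ⟨v, hv, R, -, h2, h3⟩ := h k n hn
  refine ⟨v, hv, 1, ?_, R, h2, h3⟩
  have : 1 ≤ n := by omega
  simpa using this

/-- powers of logarithms -/
theorem log_pow_le (n e : ℕ) (hn : 1 ≤ n) : (Nat.log 2 n + 1) ^ e ≤ e ^ e * n := by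
  rcases Nat.eq_zero_or_pos e with rfl | he
  · simpa using hn
  have h1 : Nat.log 2 n + 1 ≤ e * 2 ^ (Nat.log 2 n / e) := by
    have h2 : Nat.log 2 n / e + 1 ≤ 2 ^ (Nat.log 2 n / e) := Nat.lt_two_pow_self
    have h3 : Nat.log 2 n < e * (Nat.log 2 n / e + 1) := by
      have := Nat.lt_mul_div_succ (Nat.log 2 n) he
      exact this
    calc Nat.log 2 n + 1 ≤ e * (Nat.log 2 n / e + 1) := h3
      _ ≤ e * 2 ^ (Nat.log 2 n / e) := Nat.mul_le_mul_left _ h2
  calc (Nat.log 2 n + 1) ^ e ≤ (e * 2 ^ (Nat.log 2 n / e)) ^ e := Nat.pow_le_pow_left h1 _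
    _ = e ^ e * 2 ^ (Nat.log 2 n / e * e) := by rw [mul_pow, ← pow_mul]
    _ ≤ e ^ e * 2 ^ Nat.log 2 n := Nat.mul_le_mul_left _
        (Nat.pow_le_pow_right (by norm_num) (Nat.div_mul_le_self _ _))
    _ ≤ e ^ e * n := Nat.mul_le_mul_left _ (Nat.pow_log_le_self 2 (by omega))

theorem compressible_of_redTT {s : ℕ → ℕ} {d r : ℕ} (hr : 1 ≤ r) (h : RedTT s d r) :
    Compressible s (2 * r) := by
  classical
  obtain ⟨f, g, G, c, h⟩ := h
  obtain ⟨e, he⟩ : ∃ e, e = d * (2 * r) := ⟨_, rfl⟩
  refine ⟨f, fun k => (G k) ^ 2 * ((2 * g k + 1) ^ e * e ^ e), c, fun k n hn => ?_⟩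
  obtain ⟨v, hv, q, hq, R, hR, hR'⟩ := h k n hn
  have hn1 : 1 ≤ n := by omega
  obtain ⟨E⟩ : Nonempty (Fin q × Clause v d ≃ Fin (q * Fintype.card (Clause v d))) :=
    ⟨Fintype.equivFinOfCardEq (by rw [Fintype.card_prod, Fintype.card_fin])⟩
  refine ⟨q * Fintype.card (Clause v d), ?_, R.C, fun j => R.out (E.symm j).1 (E.symm j).2, hR,
    fun i j hj => R.out_lt _ _ j hj, fun x y hxy hx => ?_⟩
  · have h1 : 2 * v + 1 ≤ (2 * g k + 1) * (Nat.log 2 n + 1) := by
      calc 2 * v + 1 ≤ 2 * (g k * (Nat.log 2 n + 1)) + (Nat.log 2 n + 1) := by omega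
        _ = _ := by ring
    have h2 : Fintype.card (Clause v d) ^ (2 * r) ≤ (2 * g k + 1) ^ e * (e ^ e * n) := by
      calc Fintype.card (Clause v d) ^ (2 * r) ≤ ((2 * v + 1) ^ d) ^ (2 * r) :=
            Nat.pow_le_pow_left (card_clause v d) _
        _ = (2 * v + 1) ^ e := by rw [← pow_mul, he]
        _ ≤ ((2 * g k + 1) * (Nat.log 2 n + 1)) ^ e := Nat.pow_le_pow_left h1 _
        _ = (2 * g k + 1) ^ e * (Nat.log 2 n + 1) ^ e := by rw [mul_pow]
        _ ≤ _ := Nat.mul_le_mul_left _ (log_pow_le n e hn1)
    calc (q * Fintype.card (Clause v d)) ^ (2 * r)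
        = (q ^ r) ^ 2 * Fintype.card (Clause v d) ^ (2 * r) := by
          rw [mul_pow, ← pow_mul, Nat.mul_comm r 2]
      _ ≤ (G k * n ^ (2 * r - 1)) ^ 2 * ((2 * g k + 1) ^ e * (e ^ e * n)) :=
          Nat.mul_le_mul (Nat.pow_le_pow_left hq 2) h2
      _ = (G k) ^ 2 * ((2 * g k + 1) ^ e * e ^ e) * (n ^ ((2 * r - 1) * 2) * n) := by
          rw [mul_pow, ← pow_mul]; ring
      _ = (G k) ^ 2 * ((2 * g k + 1) ^ e * e ^ e) * n ^ (2 * (2 * r) - 1) := by
          rw [← pow_succ]
          congr 2
          omega
  · have key : R.answer x = R.answer y := by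
      unfold TT.answer
      congr 1
      funext i
      have : (fun c => (R.out i c).eval x (R.C.val x)) =
          fun c => (R.out i c).eval y (R.C.val y) := by
        funext c
        have := hxy (E (i, c))
        dsimp only at this
        rw [Equiv.symm_apply_apply] at this
        exact this
      rw [this]
    have h1 : R.answer x = false := (hR' x).2 hx
    by_contra hcon
    have h2 : R.answer y = true := (hR' y).1 hcon
    rw [key, h2] at h1
    exact absurd h1 (by simp)

/-- With `n (n - 1) / 2` questions there are trivial reductions, without any gates. -/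
theorem trivial_tt (n v d k : ℕ) : ∃ R : TT n v d (n.choose 2), R.C.size = 0 ∧
    ∀ x, R.Right k k x := by
  classical
  refine ⟨⟨Circuit.empty _, fun i c => if c.1 = ∅ then .var i else .const false,
    fun i c j hj => ?_, fun a => decide (¬ (graph fun i => !(a i)).CliqueFree k)⟩, rfl,
    fun x => ?_⟩
  · exfalso
    split_ifs at hj <;> exact hj rfl
  · have key : ∀ i : Fin (n.choose 2),
        (!(decide (Sat (v := v) (d := d) fun c => (if c.1 = ∅ then (Node.var i : Node (n.choose 2))
          else .const false).eval x ((Circuit.empty (n.choose 2)).val x)))) = x i := by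
      intro i
      have : Sat (v := v) (d := d) (fun c => (if c.1 = ∅ then (Node.var i : Node (n.choose 2))
          else .const false).eval x ((Circuit.empty (n.choose 2)).val x)) ↔ x i = false := by
        constructor
        · rintro ⟨a, ha⟩
          by_contra hcon
          have hx : x i = true := by
            cases h : x i with
            | true => rfl
            | false => exact absurd h hcon
          have := ha ⟨∅, by simp⟩ (by simp [Node.eval, hx])
          simp at this
        · intro hx
          refine ⟨fun _ => false, fun c hc => ?_⟩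
          exfalso
          dsimp only at hc
          by_cases h : c.1 = ∅
          · rw [if_pos h] at hc
            rw [show (Node.var i : Node (n.choose 2)).eval x _ = x i from rfl, hx] at hc
            exact absurd hc (by simp)
          · rw [if_neg h] at hc
            exact absurd hc (by simp [Node.eval])
      cases h : x i with
      | true =>
        have h1 : ¬ Sat (v := v) (d := d) (fun c => (if c.1 = ∅ then (Node.var i : Node (n.choose 2))
          else .const false).eval x ((Circuit.empty (n.choose 2)).val x)) := by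
          rw [this, h]; simp
        simp only [h1, decide_false, Bool.not_false]
      | false =>
        have h1 := this.2 h
        simp only [h1, decide_true, Bool.not_true]
    have hg : TT.answer (⟨Circuit.empty _, fun i c => if c.1 = ∅ then .var i else .const false,
        fun i c j hj => by exfalso; split_ifs at hj <;> exact hj rfl,
        fun a => decide (¬ (graph fun i => !(a i)).CliqueFree k)⟩ : TT n v d (n.choose 2)) x =
        decide (¬ (graph x).CliqueFree k) := by
      unfold TT.answer
      have : (fun i => !(decide (Sat (v := v) (d := d) fun c => (if c.1 = ∅ then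
          (Node.var i : Node (n.choose 2)) else .const false).eval x
            ((Circuit.empty (n.choose 2)).val x)))) = x := funext key
      dsimp only
      rw [this]
    constructor
    · intro h
      rw [hg]
      simpa using h
    · intro h
      rw [hg]
      simpa using h

end Pool.Agent.K6.H3.FS
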