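import Mathlib
import Pool.Agent.K6.H3.FS.Main

/-!
# From graphs without clique to unsatisfiable formulas
-/

set_option autoImplicit false

namespace Pool.Agent.K6.H3.FS

open Finset Pool.Agent.W953.RD.CM Pool.Agent.W953.RD Pool.Agent.W953.NW
open Pool.Agent.H540R2 Pool.Agent.H540R2.Circuit
open Pool.Agent.H679R2.M1 (Clause Sat card_clause)

/-- There is a nondeterministic circuit with at most `2 ^ (ε v)` gates and guessed bits which accepts
exactly the unsatisfiable formulas with at most `d` literals per clause in `v` variables. A formula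
is given by one bit for each possible clause. -/
def UnsatNondet (d : ℕ) (ε : ℝ) (v : ℕ) : Prop :=
  ∃ (m : ℕ) (Q : Circuit (Fintype.card (Clause v d) + m)), (Q.size : ℝ) ≤ 2 ^ (ε * v) ∧
    (m : ℝ) ≤ 2 ^ (ε * v) ∧ ∀ φ : Clause v d → Bool,
      (∃ w : Fin m → Bool,
        Q.eval (Fin.append (fun i => φ ((Fintype.equivFin (Clause v d)).symm i)) w) = true) ↔
      ¬ Sat φ

section graph

variable {v d K D b : ℕ}

/-- the vertices: `D` blocks of variables and an assignment for each of them -/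
abbrev Wx (K D b : ℕ) : Type := (Fin D → Fin K) × (Fin D → Fin b → Bool)

/-- the assignments agree on the common blocks -/
def Cons (x y : Wx K D b) : Prop := ∀ s s', x.1 s = y.1 s' → x.2 s = y.2 s'

/-- all literals of the clause are falsified -/
def Bad (hK : 0 < K) (hb : v / K + 1 = b) (x : Wx K D b) (c : Clause v d) : Prop :=
  ∀ l ∈ c.1, ∃ s, x.1 s = ⟨l.1.val % K, Nat.mod_lt _ hK⟩ ∧
    x.2 s ⟨l.1.val / K, by
      rw [← hb]; exact Nat.lt_succ_of_le (Nat.div_le_div_right l.1.isLt.le)⟩ ≠ l.2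

/-- the fixed part of adjacency -/
def Pre (x y : Wx K D b) : Prop := x.1 ≠ y.1 ∧ Cons x x ∧ Cons y y ∧ Cons x y ∧ Cons y x

/-- the graph of a formula -/
def fgraph (hK : 0 < K) (hb : v / K + 1 = b) (φ : Clause v d → Bool) : SimpleGraph (Wx K D b) :=
  SimpleGraph.fromRel fun x y => Pre x y ∧
    ∀ c, (Bad hK hb x c ∨ Bad hK hb y c) → φ c = false

theorem fgraph_adj {hK : 0 < K} {hb : v / K + 1 = b} {φ : Clause v d → Bool} {x y : Wx K D b} :
    (fgraph hK hb φ).Adj x y ↔ Pre x y ∧ ∀ c, (Bad hK hb x c ∨ Bad hK hb y c) → φ c = false := by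
  unfold fgraph
  rw [SimpleGraph.fromRel_adj]
  constructor
  · rintro ⟨-, h | ⟨⟨h1, h2, h3, h4, h5⟩, h6⟩⟩
    · exact h
    · exact ⟨⟨h1.symm, h3, h2, h5, h4⟩, fun c hc => h6 c hc.symm⟩
  · rintro h
    exact ⟨fun hxy => h.1.1 (by rw [hxy]), Or.inl h⟩

theorem sat_iff (hK : 0 < K) (hb : v / K + 1 = b) (hK2 : 2 ≤ K) (hD : d < D)
    (φ : Clause v d → Bool) : Sat φ ↔ Clq (fgraph (D := D) hK hb φ) (K ^ D) := by
  classical
  have hcard : Fintype.card (Fin D → Fin K) = K ^ D := by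
    rw [Fintype.card_fun, Fintype.card_fin, Fintype.card_fin]
  constructor
  · rintro ⟨σ, hσ⟩
    obtain ⟨E⟩ : Nonempty (Fin (K ^ D) ≃ (Fin D → Fin K)) :=
      ⟨(Fintype.equivFinOfCardEq hcard).symm⟩
    set g : (Fin D → Fin K) → Wx K D b := fun T =>
      (T, fun s j => if h : j.val * K + (T s).val < v then σ ⟨j.val * K + (T s).val, h⟩ else false)
      with hg
    have hcons : ∀ T T', Cons (g T) (g T') := by
      intro T T' s s' h
      have h' : T s = T' s' := h
      funext j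
      show (if h : j.val * K + (T s).val < v then σ ⟨j.val * K + (T s).val, h⟩ else false) =
        if h : j.val * K + (T' s').val < v then σ ⟨j.val * K + (T' s').val, h⟩ else false
      rw [h']
    have hbad : ∀ T c, Bad hK hb (g T) c → φ c = false := by
      intro T c hc
      by_contra hcon
      have hφ : φ c = true := by
        cases h : φ c with
        | true => rfl
        | false => exact absurd h hcon
      obtain ⟨l, hl, hl2⟩ := hσ c hφ
      obtain ⟨s, hs, hs2⟩ := hc l hl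
      apply hs2
      have hs' : T s = ⟨l.1.val % K, Nat.mod_lt _ hK⟩ := hs
      show (if h : (l.1.val / K) * K + (T s).val < v then
        σ ⟨(l.1.val / K) * K + (T s).val, h⟩ else false) = l.2
      have e : (l.1.val / K) * K + (T s).val = l.1.val := by
        rw [hs']
        show (l.1.val / K) * K + l.1.val % K = l.1.val
        rw [Nat.mul_comm]
        exact Nat.div_add_mod _ _
      have hlt : (l.1.val / K) * K + (T s).val < v := by rw [e]; exact l.1.isLt
      rw [dif_pos hlt, ← hl2]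
      congr 1
      exact Fin.ext e
    refine ⟨fun i => g (E i), fun i j hij => fgraph_adj.2 ⟨⟨?_, hcons _ _, hcons _ _, hcons _ _,
      hcons _ _⟩, ?_⟩⟩
    · intro h
      exact hij (E.injective h)
    · rintro c (h | h) <;> exact hbad _ _ h
  · rintro ⟨f, hf⟩
    have hinj : Function.Injective fun i => (f i).1 := by
      intro i j hij
      by_contra hne
      exact (fgraph_adj.1 (hf i j hne)).1.1 hij
    have hsurj : Function.Surjective fun i => (f i).1 :=
      ((Fintype.bijective_iff_injective_and_card _).2 ⟨hinj, by rw [hcard, Fintype.card_fin]⟩).2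
    choose u hu using hsurj
    have hD0 : 0 < D := by omega
    -- two different tuples
    have hne : ∀ i : Fin (K ^ D), ∃ j, j ≠ i := by
      intro i
      have h2 : 2 ≤ K ^ D := by
        calc 2 ≤ K := hK2
          _ = K ^ 1 := (pow_one K).symm
          _ ≤ K ^ D := Nat.pow_le_pow_right hK hD0
      by_cases h0 : i = ⟨0, by omega⟩
      · exact ⟨⟨1, by omega⟩, by rw [h0]; intro h; simp [Fin.ext_iff] at h⟩
      · exact ⟨⟨0, by omega⟩, Ne.symm h0⟩
    have hcons : ∀ i j, Cons (f i) (f j) := by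
      intro i j
      by_cases hij : i = j
      · obtain ⟨k, hk⟩ := hne i
        rw [← hij]
        exact (fgraph_adj.1 (hf i k (Ne.symm hk))).1.2.1
      · exact (fgraph_adj.1 (hf i j hij)).1.2.2.2.1
    have hbad : ∀ i c, φ c = true → ¬ Bad hK hb (f i) c := by
      intro i c hc hb'
      obtain ⟨k, hk⟩ := hne i
      have := (fgraph_adj.1 (hf i k (Ne.symm hk))).2 c (Or.inl hb')
      rw [hc] at this
      exact absurd this (by simp)
    refine ⟨fun i => (f (u fun _ => ⟨i.val % K, Nat.mod_lt _ hK⟩)).2 ⟨0, hD0⟩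
      ⟨i.val / K, by rw [← hb]; exact Nat.lt_succ_of_le (Nat.div_le_div_right i.isLt.le)⟩,
      fun c hc => ?_⟩
    -- the blocks of the clause
    obtain ⟨T, hT⟩ : ∃ T : Fin D → Fin K, ∀ l ∈ c.1, ∃ s, T s =
        ⟨l.1.val % K, Nat.mod_lt _ hK⟩ := by
      have hc' : c.1.card ≤ D := c.2.trans hD.le
      refine ⟨fun s => if h : s.val < c.1.card then
        ⟨(c.1.equivFin.symm ⟨s.val, h⟩).1.1.val % K, Nat.mod_lt _ hK⟩ else ⟨0, hK⟩, ?_⟩
      intro l hl
      refine ⟨⟨(c.1.equivFin ⟨l, hl⟩).val, lt_of_lt_of_le (c.1.equivFin ⟨l, hl⟩).2 hc'⟩, ?_⟩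
      have h : (c.1.equivFin ⟨l, hl⟩).val < c.1.card := (c.1.equivFin ⟨l, hl⟩).2
      beta_reduce
      rw [dif_pos h]
      have h2 : c.1.equivFin.symm ⟨(c.1.equivFin ⟨l, hl⟩).val, h⟩ = ⟨l, hl⟩ :=
        Equiv.symm_apply_apply _ _
      rw [h2]
    have hnb := hbad (u T) c hc
    unfold Bad at hnb
    push Not at hnb
    obtain ⟨l, hl, hl2⟩ := hnb
    obtain ⟨s, hs⟩ := hT l hl
    refine ⟨l, hl, ?_⟩
    have hus : (f (u T)).1 s = ⟨l.1.val % K, Nat.mod_lt _ hK⟩ := by
      have : (f (u T)).1 = T := hu T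
      rw [this]; exact hs
    rw [← hl2 s hus]
    have hu0 : (f (u fun _ => (⟨l.1.val % K, Nat.mod_lt _ hK⟩ : Fin K))).1 ⟨0, hD0⟩ =
        ⟨l.1.val % K, Nat.mod_lt _ hK⟩ :=
      congrFun (hu fun _ => (⟨l.1.val % K, Nat.mod_lt _ hK⟩ : Fin K)) ⟨0, hD0⟩
    have := hcons (u fun _ => (⟨l.1.val % K, Nat.mod_lt _ hK⟩ : Fin K)) (u T) ⟨0, hD0⟩ s
      (by rw [hu0, hus])
    exact congrFun this _

end graph

/-- finite families of properties -/
lemma Grow.all {n : ℕ} (P : Circuit n) (Q : ℕ → Circuit n → Prop)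
    (hQ : ∀ j P P', Ext P P' → Q j P → Q j P') (s : ℕ) : ∀ k : ℕ,
    (∀ j < k, ∀ P', Ext P P' → ∃ P'' : Circuit n, Grow P' P'' s ∧ Q j P'') →
    ∃ P' : Circuit n, Grow P P' (k * s) ∧ ∀ j < k, Q j P' := by
  intro k
  induction k with
  | zero =>
    intro _
    exact ⟨P, Grow.refl _ _, fun j hj => absurd hj (Nat.not_lt_zero j)⟩
  | succ k ih =>
    intro h
    obtain ⟨P1, s1, a1⟩ := ih (fun j hj => h j (by omega))
    obtain ⟨P2, s2, a2⟩ := h k (Nat.lt_succ_self k) P1 s1.1
    refine ⟨P2, (s1.trans s2).le (by rw [Nat.succ_mul]), fun j hj => ?_⟩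
    rcases Nat.lt_succ_iff_lt_or_eq.mp hj with h' | rfl
    · exact hQ j _ _ s2.1 (a1 j h')
    · exact a2

/-- the circuit for formulas -/
theorem unsat_circuit {v d K D b n m : ℕ} (hK : 0 < K) (hb : v / K + 1 = b) (hK2 : 2 ≤ K)
    (hD : d < D) (hn : n = K ^ D * (2 ^ b) ^ D) (Q : Circuit (n.choose 2 + m))
    (hQ1 : ∀ x, (graph x).CliqueFree (K ^ D) → ∃ w, Q.eval (Fin.append x w) = true)
    (hQ2 : ∀ x, ¬ (graph x).CliqueFree (K ^ D) → ∀ w, Q.eval (Fin.append x w) = false) :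
    ∃ Q' : Circuit (Fintype.card (Clause v d) + m),
      Q'.size ≤ n.choose 2 * (Fintype.card (Clause v d) * 2) + Q.size ∧
      ∀ φ : Clause v d → Bool, (∃ w : Fin m → Bool,
        Q'.eval (Fin.append (fun i => φ ((Fintype.equivFin (Clause v d)).symm i)) w) = true) ↔
      ¬ Sat φ := by
  classical
  have hV : Fintype.card (Wx K D b) = n := by
    rw [Fintype.card_prod, Fintype.card_fun, Fintype.card_fun, Fintype.card_fun, Fintype.card_fin,
      Fintype.card_fin, Fintype.card_fin, Fintype.card_bool, hn]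
  obtain ⟨E⟩ : Nonempty (Wx K D b ≃ Fin n) := ⟨Fintype.equivFinOfCardEq hV⟩
  set M := Fintype.card (Clause v d) with hM
  -- the bits of the graph
  let A : Fin (n.choose 2) → Wx K D b := fun e => E.symm ((pairNo n).symm e).1.1
  let B : Fin (n.choose 2) → Wx K D b := fun e => E.symm ((pairNo n).symm e).1.2
  let G : Fin (n.choose 2) → (Clause v d → Bool) → Bool := fun e φ =>
    decide ((fgraph hK hb φ).Adj (A e) (B e))
  have hG : ∀ φ (x y : Fin n), (graph fun e => G e φ).Adj x y ↔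
      (fgraph hK hb φ).Adj (E.symm x) (E.symm y) := by
    intro φ x y
    have key : ∀ x y : Fin n, ∀ h : x < y, (G (pairNo n ⟨(x, y), h⟩) φ = true ↔
        (fgraph hK hb φ).Adj (E.symm x) (E.symm y)) := by
      intro x y h
      show decide ((fgraph hK hb φ).Adj (E.symm ((pairNo n).symm (pairNo n ⟨(x, y), h⟩)).1.1)
        (E.symm ((pairNo n).symm (pairNo n ⟨(x, y), h⟩)).1.2)) = true ↔ _
      rw [Equiv.symm_apply_apply, decide_eq_true_eq]
    rw [graph_adj]
    constructor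
    · rintro (⟨h, h1⟩ | ⟨h, h1⟩)
      · exact (key x y h).1 h1
      · exact ((key y x h).1 h1).symm
    · intro h
      have hne : x ≠ y := by
        rintro rfl
        exact h.ne rfl
      rcases lt_or_gt_of_ne hne with h' | h'
      · exact Or.inl ⟨h', (key x y h').2 h⟩
      · exact Or.inr ⟨h', (key y x h').2 h.symm⟩
  have hClq : ∀ φ, Clq (graph fun e => G e φ) (K ^ D) ↔ Clq (fgraph (D := D) hK hb φ) (K ^ D) := by
    intro φ
    constructor
    · rintro ⟨f, hf⟩
      exact ⟨fun i => E.symm (f i), fun i j hij => (hG φ _ _).1 (hf i j hij)⟩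
    · rintro ⟨f, hf⟩
      refine ⟨fun i => E (f i), fun i j hij => (hG φ _ _).2 ?_⟩
      rw [Equiv.symm_apply_apply, Equiv.symm_apply_apply]
      exact hf i j hij
  -- the formula of an input
  let fo : (Fin (M + m) → Bool) → Clause v d → Bool := fun y c =>
    y (Fin.castAdd m (Fintype.equivFin (Clause v d) c))
  obtain ⟨P1, s1, a1⟩ := Grow.all (Circuit.empty (M + m))
    (fun e P => ∀ he : e < n.choose 2, AvE P fun y => G ⟨e, he⟩ (fo y))
    (fun j P P' h h' he => (h' he).ext h) (M * 2) (n.choose 2) (fun e he P' _ => by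
      by_cases hpre : Pre (A ⟨e, he⟩) (B ⟨e, he⟩)
      · obtain ⟨P'', s, q, aq⟩ := and_all P' (fun j y => decide (∀ hj : j < M,
          (Bad hK hb (A ⟨e, he⟩) ((Fintype.equivFin (Clause v d)).symm ⟨j, hj⟩) ∨
            Bad hK hb (B ⟨e, he⟩) ((Fintype.equivFin (Clause v d)).symm ⟨j, hj⟩)) →
          fo y ((Fintype.equivFin (Clause v d)).symm ⟨j, hj⟩) = false)) 1 M
          (fun j hj P'' _ => by
            by_cases hc : (Bad hK hb (A ⟨e, he⟩) ((Fintype.equivFin (Clause v d)).symm ⟨j, hj⟩) ∨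
              Bad hK hb (B ⟨e, he⟩) ((Fintype.equivFin (Clause v d)).symm ⟨j, hj⟩))
            · obtain ⟨P3, s3, q, aq⟩ := eq_const (P := P'')
                (f := fun y => fo y ((Fintype.equivFin (Clause v d)).symm ⟨j, hj⟩))
                ⟨0, Av.var P'' _ 0⟩ false
              refine ⟨P3, s3, q, aq.congr fun y => ?_⟩
              rw [Bool.eq_iff_iff]
              simp only [decide_eq_true_eq]
              exact ⟨fun h _ _ => h, fun h => h hj hc⟩
            · refine ⟨P'', Grow.refl _ _, 0, (Av.const P'' true 0).congr fun y => ?_⟩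
              rw [Bool.eq_iff_iff]
              simp only [decide_eq_true_eq, true_iff]
              exact fun _ h => absurd h hc)
        refine ⟨P'', s, fun _ => ⟨q, aq.congr fun y => ?_⟩⟩
        show _ = decide ((fgraph hK hb (fo y)).Adj (A ⟨e, he⟩) (B ⟨e, he⟩))
        rw [Bool.eq_iff_iff]
        simp only [decide_eq_true_eq]
        rw [fgraph_adj]
        constructor
        · intro h
          refine ⟨hpre, fun c hc => ?_⟩
          have := h (Fintype.equivFin (Clause v d) c).val (Fintype.equivFin (Clause v d) c).isLt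
            (Fintype.equivFin (Clause v d) c).isLt
          simp only [Fin.eta, Equiv.symm_apply_apply] at this
          exact this hc
        · rintro ⟨-, h⟩ j _ hj hc
          exact h _ hc
      · refine ⟨P', Grow.refl _ _, fun _ => ⟨0, (Av.const P' false 0).congr fun y => ?_⟩⟩
        show _ = decide ((fgraph hK hb (fo y)).Adj (A ⟨e, he⟩) (B ⟨e, he⟩))
        rw [Bool.eq_iff_iff]
        simp only [decide_eq_true_eq, Bool.false_eq_true, false_iff]
        exact fun h => hpre (fgraph_adj.1 h).1)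
  obtain ⟨P2, s2, a2⟩ := AvE.app P1 Q (Fin.addCases (fun e y => G e (fo y))
      (fun i y => y (Fin.natAdd M i))) (fun p => by
    refine Fin.addCases (fun e => ?_) (fun i => ?_) p
    · rw [Fin.addCases_left]
      exact a1 e.val e.isLt e.isLt
    · rw [Fin.addCases_right]
      exact ⟨0, Av.var P1 _ 0⟩)
  obtain ⟨q, aq⟩ := a2 Q.out Q.out_lt
  obtain ⟨Q', q1, -, -, q4⟩ := aq.circuit
  have hev : ∀ φ w, Q'.eval (Fin.append (fun i => φ ((Fintype.equivFin (Clause v d)).symm i)) w) =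
      Q.eval (Fin.append (fun e => G e φ) w) := by
    intro φ w
    rw [q4]
    have hfo : fo (Fin.append (fun i => φ ((Fintype.equivFin (Clause v d)).symm i)) w) = φ := by
      funext c
      show Fin.append (fun i => φ ((Fintype.equivFin (Clause v d)).symm i)) w
        (Fin.castAdd m (Fintype.equivFin (Clause v d) c)) = φ c
      rw [Fin.append_left, Equiv.symm_apply_apply]
    have : (fun i => (Fin.addCases (motive := fun _ => BF (M + m)) (fun e y => G e (fo y))
        (fun i y => y (Fin.natAdd M i)) i : BF (M + m))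
        (Fin.append (fun i => φ ((Fintype.equivFin (Clause v d)).symm i)) w)) =
        Fin.append (fun e => G e φ) w := by
      funext p
      refine Fin.addCases (fun e => ?_) (fun i => ?_) p
      · rw [Fin.addCases_left, Fin.append_left, hfo]
      · rw [Fin.addCases_right, Fin.append_right, Fin.append_right]
    rw [this]
    rfl
  refine ⟨Q', ?_, fun φ => ?_⟩
  · have e1 := s1.2
    have e2 := s2.2.1
    have e0 : (Circuit.empty (M + m)).size = 0 := rfl
    show Q'.size ≤ n.choose 2 * (M * 2) + Q.size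
    omega
  · rw [sat_iff (D := D) hK hb hK2 hD φ, ← hClq, ← clq_iff, not_not]
    constructor
    · rintro ⟨w, hw⟩
      by_contra hcon
      have := hQ2 _ hcon w
      rw [hev, this] at hw
      exact absurd hw (by simp)
    · intro h
      obtain ⟨w, hw⟩ := hQ1 _ h
      exact ⟨w, by rw [hev]; exact hw⟩

/-- powers of two exceed polynomials -/
theorem eventually_poly {ε : ℝ} (hε : 0 < ε) (C : ℝ) (d : ℕ) :
    ∀ᶠ v : ℕ in Filter.atTop, C * (v : ℝ) ^ d ≤ 2 ^ (ε * v) := by
  have h1 : (1 : ℝ) < 2 ^ ε := Real.one_lt_rpow (by norm_num) hε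
  have h2 := (isLittleO_pow_const_const_pow_of_one_lt (R := ℝ) d h1).const_mul_left C
  have h3 := h2.bound (c := 1) (by norm_num)
  filter_upwards [h3] with v hv
  have h4 : ((2 : ℝ) ^ ε) ^ v = 2 ^ (ε * v) := by
    rw [← Real.rpow_natCast, ← Real.rpow_mul (by norm_num)]
  rw [h4, one_mul] at hv
  calc C * (v : ℝ) ^ d ≤ ‖C * (v : ℝ) ^ d‖ := Real.le_norm_self _
    _ ≤ ‖(2 : ℝ) ^ (ε * v)‖ := hv
    _ = 2 ^ (ε * v) := Real.norm_of_nonneg (by positivity)

/-- **Nondeterministic circuits for unsatisfiability of subexponential size.** -/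
theorem unsat_of_coNondet (h : CoNondet id) (d : ℕ) (ε : ℝ) (hε : 0 < ε) :
    ∀ᶠ v : ℕ in Filter.atTop, UnsatNondet d ε v := by
  obtain ⟨F, c, h⟩ := h
  obtain ⟨D, hD⟩ : ∃ D, D = d + 1 := ⟨_, rfl⟩
  obtain ⟨K, hK⟩ : ∃ K : ℕ, K = ⌈2 * (D * (c + 2) : ℝ) / ε⌉₊ + 2 := ⟨_, rfl⟩
  have hK2 : 2 ≤ K := by omega
  have hK0 : 0 < K := by omega
  have hKε : (D * (c + 2) : ℝ) / K ≤ ε / 2 := by
    have h1 : 2 * (D * (c + 2) : ℝ) / ε ≤ K := by
      rw [hK]; push_cast
      have := Nat.le_ceil (2 * (D * (c + 2) : ℝ) / ε)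
      linarith
    rw [div_le_iff₀ hε] at h1
    rw [div_le_iff₀ (by exact_mod_cast hK0)]
    linarith
  set C₂ : ℝ := (((2 * K) ^ D : ℕ) : ℝ) ^ (c + 2) with hC₂
  filter_upwards [eventually_poly (half_pos hε) ((2 * 3 ^ d + F (K ^ D)) * C₂) d,
    Filter.eventually_ge_atTop 1] with v hv hv1
  obtain ⟨b, hb⟩ : ∃ b, v / K + 1 = b := ⟨_, rfl⟩
  obtain ⟨n, hn⟩ : ∃ n, n = K ^ D * (2 ^ b) ^ D := ⟨_, rfl⟩
  have hn2 : 2 ≤ n := by
    have h1 : 2 ≤ K ^ D := by
      calc 2 ≤ K := hK2
        _ = K ^ 1 := (pow_one K).symm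
        _ ≤ K ^ D := Nat.pow_le_pow_right hK0 (by omega)
    rw [hn]
    exact h1.trans (Nat.le_mul_of_pos_right _ (by positivity))
  obtain ⟨m, hm, Q, hQ, hQ1, hQ2⟩ := h (K ^ D) n hn2
  obtain ⟨Q', q1, q2⟩ := unsat_circuit (d := d) hK0 hb hK2 (by omega) hn Q hQ1 hQ2
  -- estimates
  have hnr : (n : ℝ) ^ (c + 2) ≤ C₂ * 2 ^ (ε / 2 * v) := by
    have e1 : (n : ℝ) = (((2 * K) ^ D : ℕ) : ℝ) * 2 ^ ((D : ℝ) * (v / K : ℕ)) := by
      rw [hn, ← hb]
      push_cast
      rw [mul_pow, show (D : ℝ) * ((v / K : ℕ) : ℝ) = ((D * (v / K) : ℕ) : ℝ) by push_cast; ring,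
        Real.rpow_natCast, ← pow_mul, pow_mul]
      ring
    rw [e1, mul_pow, hC₂]
    refine mul_le_mul_of_nonneg_left ?_ (by positivity)
    rw [← Real.rpow_natCast, ← Real.rpow_mul (by norm_num)]
    refine Real.rpow_le_rpow_of_exponent_le (by norm_num) ?_
    have h2 : ((v / K : ℕ) : ℝ) ≤ v / K := Nat.cast_div_le
    calc (D : ℝ) * ((v / K : ℕ) : ℝ) * ((c + 2 : ℕ) : ℝ)
        ≤ (D : ℝ) * (v / K) * ((c + 2 : ℕ) : ℝ) := by gcongr
      _ = ((D * (c + 2) : ℝ) / K) * v := by push_cast; ring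
      _ ≤ ε / 2 * v := mul_le_mul_of_nonneg_right hKε (Nat.cast_nonneg _)
  have hnat : n.choose 2 * (Fintype.card (Clause v d) * 2) + F (K ^ D) * n ^ c ≤
      (2 * 3 ^ d + F (K ^ D)) * v ^ d * n ^ (c + 2) := by
    have hn1 : 1 ≤ n := by omega
    have g1 : n.choose 2 ≤ n ^ (c + 2) :=
      (Nat.choose_le_pow n 2).trans (Nat.pow_le_pow_right hn1 (by omega))
    have g2 : Fintype.card (Clause v d) * 2 ≤ 2 * 3 ^ d * v ^ d := by
      calc Fintype.card (Clause v d) * 2 ≤ (2 * v + 1) ^ d * 2 :=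
            Nat.mul_le_mul_right _ (card_clause v d)
        _ ≤ (3 * v) ^ d * 2 := Nat.mul_le_mul_right _ (Nat.pow_le_pow_left (by omega) _)
        _ = 2 * 3 ^ d * v ^ d := by rw [mul_pow]; ring
    have g3 : n ^ c ≤ n ^ (c + 2) := Nat.pow_le_pow_right hn1 (by omega)
    have g4 : 1 ≤ v ^ d := Nat.one_le_pow _ _ hv1
    calc n.choose 2 * (Fintype.card (Clause v d) * 2) + F (K ^ D) * n ^ c
        ≤ n ^ (c + 2) * (2 * 3 ^ d * v ^ d) + F (K ^ D) * n ^ (c + 2) * v ^ d :=
          Nat.add_le_add (Nat.mul_le_mul g1 g2)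
            ((Nat.mul_le_mul_left _ g3).trans (Nat.le_mul_of_pos_right _ g4))
      _ = (2 * 3 ^ d + F (K ^ D)) * v ^ d * n ^ (c + 2) := by ring
  have hreal : (((2 * 3 ^ d + F (K ^ D)) * v ^ d * n ^ (c + 2) : ℕ) : ℝ) ≤ 2 ^ (ε * v) := by
    push_cast
    calc ((2 : ℝ) * 3 ^ d + F (K ^ D)) * v ^ d * (n : ℝ) ^ (c + 2)
        ≤ ((2 : ℝ) * 3 ^ d + F (K ^ D)) * v ^ d * (C₂ * 2 ^ (ε / 2 * v)) :=
          mul_le_mul_of_nonneg_left hnr (by positivity)
      _ = (((2 : ℝ) * 3 ^ d + F (K ^ D)) * C₂ * v ^ d) * 2 ^ (ε / 2 * v) := by ring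
      _ ≤ 2 ^ (ε / 2 * v) * 2 ^ (ε / 2 * v) :=
          mul_le_mul_of_nonneg_right hv (by positivity)
      _ = 2 ^ (ε * v) := by
          rw [← Real.rpow_add (by norm_num)]
          congr 1
          ring
  refine ⟨m, Q', ?_, ?_, q2⟩
  · refine le_trans ?_ hreal
    exact_mod_cast (q1.trans (Nat.add_le_add_left hQ _)).trans hnat
  · refine le_trans ?_ hreal
    exact_mod_cast (hm.trans (Nat.le_add_left _ _)).trans hnat

end Pool.Agent.K6.H3.FS
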